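import Pool.Agent.Work.MP_1ce445_k4.Interface

/-! Block BK4. -/

set_option autoImplicit false

namespace Pool.Agent.Work.MP_1ce445_k4

open Finset Pool.Agent.Work.MP_1ce445_co_56 Pool.Agent.Work.MP_1ce445_lin

def BK4_a : Fin 8 → Fin 6 := ![0, 0, 0, 0, 1, 1, 1, 1]

def BK4_b : Fin 8 → Fin 6 := ![2, 3, 4, 5, 2, 3, 4, 5]

def BK4_w : Fin 6 → ℕ := ![4, 4, 1, 1, 1, 1]

set_option maxRecDepth 100000 in
theorem BK4_two : ∀ t : Fin 6 → Bool,
    (univ.filter (fun i : Fin 6 => t i = true)).card ≤ 2 → (t 0 = true ∨ t 1 = true) →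
    14 ≤ 6 + (∑ i : Fin 6, if t i = true then BK4_w i else 0) +
      (univ.filter (fun s : Fin 8 => t (BK4_a s) = false ∧ t (BK4_b s) = false)).card := by
  decide

set_option maxRecDepth 100000 in
theorem BK4_three : ∀ t : Fin 6 → Bool,
    14 ≤ 3 * max 3 (univ.filter (fun i : Fin 6 => t i = true)).card +
      (∑ i : Fin 6, if t i = true then BK4_w i else 0) +
      (univ.filter (fun s : Fin 8 => t (BK4_a s) = false ∧ t (BK4_b s) = false)).card := by
  decide

theorem BK4_sum {r : ℕ} (P : Fin r → Prop) [DecidablePred P] (x : ℝ) :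
    (∑ s, if P s then x else 0) = (univ.filter P).card * x := by
  rw [Finset.sum_ite, Finset.sum_const_zero, add_zero, Finset.sum_const, nsmul_eq_mul]

theorem BK4_wsum (t : Fin 6 → Bool) :
    (∑ i : Fin 6, if t i = true then (1 + (BK4_w i : ℝ) / 3) - 1 else 0) =
      ((∑ i : Fin 6, if t i = true then BK4_w i else 0 : ℕ) : ℝ) / 3 := by
  push_cast
  rw [Finset.sum_div]
  refine Finset.sum_congr rfl fun i _ => ?_
  split_ifs
  · ring
  · simp

theorem stmt_BK4 (hC : Stmt_CER) : Stmt_BK4 := by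
  intro V _ k M T c hK a b z1 z2 z3 z4 hnd h1 h2 h3 h4 h5 h6 h7 h8 hab
  have hp : Function.Injective (![a, b, z1, z2, z3, z4] : Fin 6 → Fin k) := by
    rw [← List.nodup_ofFn]
    simpa using hnd
  have key := hC M T c hK 6 8 ![a, b, z1, z2, z3, z4] (fun i => 1 + (BK4_w i : ℝ) / 3) BK4_a BK4_b
    (fun _ => 1 / 3) (14 / 3) hp
    (fun i => by have : (0:ℝ) ≤ (BK4_w i : ℝ) := Nat.cast_nonneg _; linarith) (fun _ => by norm_num) ?_ ?_ ?_
  · unfold Bd
    refine key.trans ?_
    have hc := hK.cl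
    have hs : (∑ i : Fin 6, ((1 + (BK4_w i : ℝ) / 3) - 1 - Real.log (1 + (BK4_w i : ℝ) / 3))) - 14 / 3 +
        c * ∑ _s : Fin 8, (1 / 3 : ℝ) =
        8 / 3 * (c - 1 / 4) - (2 * Real.log (7 / 3) + 4 * Real.log (4 / 3)) := by
      rw [Fin.sum_univ_six]
      have e0 : (BK4_w 0 : ℝ) = 4 := by
        rw [show BK4_w 0 = 4 from rfl]; norm_num
      have e1 : (BK4_w 1 : ℝ) = 4 := by
        rw [show BK4_w 1 = 4 from rfl]; norm_num
      have e2 : (BK4_w 2 : ℝ) = 1 := by
        rw [show BK4_w 2 = 1 from rfl]; norm_num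
      have e3 : (BK4_w 3 : ℝ) = 1 := by
        rw [show BK4_w 3 = 1 from rfl]; norm_num
      have e4 : (BK4_w 4 : ℝ) = 1 := by
        rw [show BK4_w 4 = 1 from rfl]; norm_num
      have e5 : (BK4_w 5 : ℝ) = 1 := by
        rw [show BK4_w 5 = 1 from rfl]; norm_num
      rw [e0, e1, e2, e3, e4, e5]
      have l1 : (1 + 4 / 3 : ℝ) = 7 / 3 := by norm_num
      have l2 : (1 + 1 / 3 : ℝ) = 4 / 3 := by norm_num
      rw [l1, l2]
      simp only [Finset.sum_const, Finset.card_univ, Fintype.card_fin, nsmul_eq_mul]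
      push_cast
      ring
    rw [hs, Real.exp_sub]
    have hl : Real.exp (2 * Real.log (7 / 3) + 4 * Real.log (4 / 3)) =
        (7 / 3 : ℝ) ^ 2 * (4 / 3) ^ 4 := by
      rw [Real.exp_add]
      congr 1
      · rw [mul_comm, Real.exp_mul, Real.exp_log (by norm_num)]; norm_num
      · rw [mul_comm, Real.exp_mul, Real.exp_log (by norm_num)]; norm_num
    rw [hl]
    have h9 : Real.exp (8 / 3 * (c - 1 / 4)) ≤ Real.exp (7 * (c - 1 / 4)) := by
      apply Real.exp_le_exp.2
      nlinarith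
    have h10 := Real.exp_pos (7 * (c - 1 / 4))
    have h11 : (16 : ℝ) ≤ (7 / 3 : ℝ) ^ 2 * (4 / 3) ^ 4 := by norm_num
    exact div_le_div₀ h10.le h9 (by norm_num) h11
  · intro s
    fin_cases s
    · exact h1
    · exact h2
    · exact h3
    · exact h4
    · exact h5
    · exact h6
    · exact h7
    · exact h8
  · intro v hv
    set p : Fin 6 → Fin k := ![a, b, z1, z2, z3, z4] with hpd
    have hcard : (univ.filter (fun i : Fin 6 => decide (p i ∈ T v) = true)).card ≤ 2 := by
      rw [← hv, ← Finset.card_image_of_injective _ hp]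
      apply Finset.card_le_card
      intro x hx
      obtain ⟨i, hi, rfl⟩ := Finset.mem_image.1 hx
      simpa using hi
    have hor : decide (p 0 ∈ T v) = true ∨ decide (p 1 ∈ T v) = true := by
      rcases hab v hv with h | h
      · left; simpa [hpd] using h
      · right; simpa [hpd] using h
    have h12 := BK4_two (fun i => decide (p i ∈ T v)) hcard hor
    have h13 : (14 : ℝ) ≤ 6 + ((∑ i : Fin 6, if decide (p i ∈ T v) = true then BK4_w i else 0 : ℕ) : ℝ) +
      ((univ.filter (fun s : Fin 8 => decide (p (BK4_a s) ∈ T v) = false ∧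
        decide (p (BK4_b s) ∈ T v) = false)).card : ℝ) := by
      exact_mod_cast h12
    have h14 := BK4_wsum (fun i => decide (p i ∈ T v))
    simp only [decide_eq_true_eq, decide_eq_false_iff_not] at h13 h14
    rw [BK4_sum, h14]
    linarith
  · intro t
    have h12 := BK4_three t
    rw [BK4_sum, BK4_wsum]
    have h13 : (14 : ℝ) ≤ 3 * max 3 ((univ.filter (fun i : Fin 6 => t i = true)).card : ℝ) +
      ((∑ i : Fin 6, if t i = true then BK4_w i else 0 : ℕ) : ℝ) +
      ((univ.filter (fun s : Fin 8 => t (BK4_a s) = false ∧ t (BK4_b s) = false)).card : ℝ) := by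
      exact_mod_cast h12
    linarith

end Pool.Agent.Work.MP_1ce445_k4
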