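import Pool.Agent.Work.MP_1ce445_k4.Interface

/-!
# Block CER (MP_1ce445_co, theorem K4U): certificates (helper88)
-/

namespace Pool.Agent.Work.MP_1ce445_k4

open Finset Pool.Agent.Work.MP_1ce445_co_56 Pool.Agent.Work.MP_1ce445_lin

/-- the weights -/
noncomputable def CER_lam {k m : ℕ} (p : Fin m → Fin k) (l : Fin m → ℝ) (x : Fin k) : ℝ :=
  1 + ∑ i, if x = p i then l i - 1 else 0

theorem CER_lam_one_le {k m : ℕ} (p : Fin m → Fin k) (l : Fin m → ℝ) (hl : ∀ i, 1 ≤ l i)
    (x : Fin k) : 1 ≤ CER_lam p l x := by
  unfold CER_lam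
  have h : 0 ≤ ∑ i, if x = p i then l i - 1 else 0 := by
    apply Finset.sum_nonneg
    intro i _
    split_ifs
    · linarith [hl i]
    · exact le_refl _
  linarith

theorem CER_lam_p {k m : ℕ} (p : Fin m → Fin k) (l : Fin m → ℝ) (hp : Function.Injective p)
    (i : Fin m) : CER_lam p l (p i) = l i := by
  unfold CER_lam
  have h : ∀ j, (if p i = p j then l j - 1 else 0) = if i = j then l j - 1 else 0 := by
    intro j
    by_cases hij : i = j
    · rw [if_pos hij, if_pos (by rw [hij])]
    · rw [if_neg hij, if_neg (fun h => hij (hp h))]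
  rw [Finset.sum_congr rfl (fun j _ => h j), Finset.sum_ite_eq]
  simp

theorem CER_lam_out {k m : ℕ} (p : Fin m → Fin k) (l : Fin m → ℝ) (x : Fin k)
    (hx : ∀ i, x ≠ p i) : CER_lam p l x = 1 := by
  unfold CER_lam
  rw [Finset.sum_eq_zero (fun i _ => if_neg (hx i))]
  simp

theorem CER_sum {k m : ℕ} (p : Fin m → Fin k) (l : Fin m → ℝ) (S : Finset (Fin k)) :
    ∑ x ∈ S, CER_lam p l x = (S.card : ℝ) + ∑ i, if p i ∈ S then l i - 1 else 0 := by
  unfold CER_lam
  rw [Finset.sum_add_distrib, Finset.sum_const, nsmul_eq_mul, mul_one, Finset.sum_comm]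
  congr 1
  apply Finset.sum_congr rfl
  intro i _
  rw [Finset.sum_ite_eq']

theorem CER_g {k m : ℕ} (p : Fin m → Fin k) (l : Fin m → ℝ) (hl : ∀ i, 1 ≤ l i)
    (hp : Function.Injective p) (M : Finset (Fin k)) :
    ∑ x ∈ M, (CER_lam p l x - 1 - Real.log (CER_lam p l x)) ≤
      ∑ i, (l i - 1 - Real.log (l i)) := by
  classical
  have hnn : ∀ x, 0 ≤ CER_lam p l x - 1 - Real.log (CER_lam p l x) := by
    intro x
    have h1 := CER_lam_one_le p l hl x
    have h2 := Real.log_le_sub_one_of_pos (show 0 < CER_lam p l x by linarith)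
    linarith
  have h1 : ∑ x ∈ M, (CER_lam p l x - 1 - Real.log (CER_lam p l x)) ≤
      ∑ x, (CER_lam p l x - 1 - Real.log (CER_lam p l x)) :=
    Finset.sum_le_sum_of_subset_of_nonneg (Finset.subset_univ M) (fun x _ _ => hnn x)
  have h2 : ∑ x ∈ univ.image p, (CER_lam p l x - 1 - Real.log (CER_lam p l x)) =
      ∑ x, (CER_lam p l x - 1 - Real.log (CER_lam p l x)) := by
    apply Finset.sum_subset (Finset.subset_univ _)
    intro x _ hx
    rw [CER_lam_out p l x]
    · simp
    · intro i hi
      apply hx
      rw [Finset.mem_image]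
      exact ⟨i, Finset.mem_univ i, hi.symm⟩
  have h3 : ∑ x ∈ univ.image p, (CER_lam p l x - 1 - Real.log (CER_lam p l x)) =
      ∑ i, (l i - 1 - Real.log (l i)) := by
    rw [Finset.sum_image (fun x _ y _ h => hp h)]
    apply Finset.sum_congr rfl
    intro i _
    rw [CER_lam_p p l hp]
  rw [h3] at h2
  rw [h2]
  exact h1

theorem stmt_CER (hL : Stmt_LPC) : Stmt_CER := by
  intro V _ k M T c hK m r p l a b mu K hp hl hmu hR h2 h3
  classical
  have key := hL M T c hK.toKg (CER_lam p l) r (fun s => {p (a s), p (b s)}) mu K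
    (CER_lam_one_le p l hl) hmu (fun s => (hR s).2) (by
      intro v
      rw [CER_sum]
      have he : ∑ s, (if ({p (a s), p (b s)} : Finset (Fin k)) ∩ T v = ∅ then mu s else 0) =
          ∑ s, if p (a s) ∉ T v ∧ p (b s) ∉ T v then mu s else 0 := by
        apply Finset.sum_congr rfl
        intro s _
        have hiff : (({p (a s), p (b s)} : Finset (Fin k)) ∩ T v = ∅) ↔
            (p (a s) ∉ T v ∧ p (b s) ∉ T v) := by
          rw [Finset.eq_empty_iff_forall_notMem]
          constructor
          · intro h
            constructor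
            · intro h1
              exact h (p (a s)) (by simp [h1])
            · intro h1
              exact h (p (b s)) (by simp [h1])
          · rintro ⟨h1, h4⟩ x hx
            rw [Finset.mem_inter, Finset.mem_insert, Finset.mem_singleton] at hx
            rcases hx with ⟨h5 | h5, h6⟩
            · rw [h5] at h6
              exact h1 h6
            · rw [h5] at h6
              exact h4 h6
        by_cases hh : p (a s) ∉ T v ∧ p (b s) ∉ T v
        · rw [if_pos hh, if_pos (hiff.2 hh)]
        · rw [if_neg hh, if_neg (fun h => hh (hiff.1 h))]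
      rw [he]
      rcases Nat.lt_or_ge 2 (T v).card with hc | hc
      · have ht := h3 (fun i => decide (p i ∈ T v))
        simp only [decide_eq_true_eq, decide_eq_false_iff_not] at ht
        have hcard : (univ.filter (fun i => p i ∈ T v)).card ≤ (T v).card := by
          apply Finset.card_le_card_of_injOn p
          · intro i hi
            exact (Finset.mem_filter.1 hi).2
          · intro x _ y _ hxy
            exact hp hxy
        have hmax : max 3 (((univ.filter (fun i => p i ∈ T v)).card : ℕ) : ℝ) ≤
            ((T v).card : ℝ) := by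
          apply max_le
          · exact_mod_cast hc
          · exact_mod_cast hcard
        linarith
      · have hc2 : (T v).card = 2 := le_antisymm hc (hK.two v)
        have ht := h2 v hc2
        rw [hc2]
        push_cast
        linarith)
  refine key.trans ?_
  apply Real.exp_le_exp.2
  have h4 := CER_g p l hl hp M
  linarith

end Pool.Agent.Work.MP_1ce445_k4
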