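import Pool.Agent.Work.MP_1ce445_k4.Interface

/-!
Block CLS of THEOREM K4U (MP_1ce445_co): a symmetric irreflexive relation without three disjoint pairs and without
points of degree one is one of a short list.
-/

namespace Pool.Agent.Work.MP_1ce445_k4

open Finset Pool.Agent.Work.MP_1ce445_co_56 Pool.Agent.Work.MP_1ce445_lin

theorem CLS_nd6 {k : ℕ} {a b c d e f : Fin k}
    (h : (a ≠ b ∧ a ≠ c ∧ a ≠ d ∧ a ≠ e ∧ a ≠ f) ∧ (b ≠ c ∧ b ≠ d ∧ b ≠ e ∧ b ≠ f) ∧
      (c ≠ d ∧ c ≠ e ∧ c ≠ f) ∧ (d ≠ e ∧ d ≠ f) ∧ e ≠ f) : [a, b, c, d, e, f].Nodup := by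
  simp only [List.nodup_cons, List.mem_cons, List.not_mem_nil, List.nodup_nil, or_false, not_or]
  tauto

theorem CLS_nd5 {k : ℕ} {a b c d e : Fin k}
    (h : (a ≠ b ∧ a ≠ c ∧ a ≠ d ∧ a ≠ e) ∧ (b ≠ c ∧ b ≠ d ∧ b ≠ e) ∧
      (c ≠ d ∧ c ≠ e) ∧ d ≠ e) : [a, b, c, d, e].Nodup := by
  simp only [List.nodup_cons, List.mem_cons, List.not_mem_nil, List.nodup_nil, or_false, not_or]
  tauto

theorem CLS_nd4 {k : ℕ} {a b c d : Fin k}
    (h : (a ≠ b ∧ a ≠ c ∧ a ≠ d) ∧ (b ≠ c ∧ b ≠ d) ∧ c ≠ d) : [a, b, c, d].Nodup := by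
  simp only [List.nodup_cons, List.mem_cons, List.not_mem_nil, List.nodup_nil, or_false, not_or]
  tauto

/-- The hypotheses: symmetric, irreflexive, no three disjoint pairs, no point of degree one. -/
structure CLS_H {k : ℕ} (Q : Fin k → Fin k → Prop) : Prop where
  sy : ∀ a b, Q a b → Q b a
  ir : ∀ a, ¬ Q a a
  n1 : ∀ a1 b1 a2 b2 a3 b3, [a1, b1, a2, b2, a3, b3].Nodup → Q a1 b1 → Q a2 b2 → Q a3 b3 → False
  n3 : ∀ x y, Q x y → ∃ z, z ≠ x ∧ Q y z

/-- alternative (6) -/
def CLS_6 {k : ℕ} (Q : Fin k → Fin k → Prop) : Prop :=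
  ∃ a b z1 z2 z3 z4, [a, b, z1, z2, z3, z4].Nodup ∧ Q a z1 ∧ Q a z2 ∧ Q a z3 ∧ Q a z4 ∧
    Q b z1 ∧ Q b z2 ∧ Q b z3 ∧ Q b z4 ∧ ∀ u v, Q u v → u = a ∨ u = b ∨ v = a ∨ v = b

/-- alternative (7) -/
def CLS_7 {k : ℕ} (Q : Fin k → Fin k → Prop) : Prop :=
  ∃ p : Fin 5 → Fin k, Function.Injective p ∧
    ∀ u v, Q u v → (∃ i, u = p i) ∧ ∃ j, v = p j

/-- alternative (8) -/
def CLS_8 {k : ℕ} (Q : Fin k → Fin k → Prop) : Prop :=
  ∃ x1 x2 x3 y1 y2 y3, [x1, x2, x3, y1, y2, y3].Nodup ∧ Q x1 x2 ∧ Q x2 x3 ∧ Q x3 x1 ∧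
    Q y1 y2 ∧ Q y2 y3 ∧ Q y3 y1 ∧ ∀ u v, Q u v →
    ((u = x1 ∨ u = x2 ∨ u = x3) ∧ (v = x1 ∨ v = x2 ∨ v = x3)) ∨
    ((u = y1 ∨ u = y2 ∨ u = y3) ∧ (v = y1 ∨ v = y2 ∨ v = y3))

/-- Making alternative (7). -/
theorem CLS_mk7 {k : ℕ} (Q : Fin k → Fin k → Prop) (hs : ∀ a b, Q a b → Q b a) (a b c d w : Fin k)
    (hnd : [a, b, c, d, w].Nodup) (h : ∀ u v, Q u v → u = a ∨ u = b ∨ u = c ∨ u = d ∨ u = w) : CLS_7 Q := by
  have h' : ∀ u v, Q u v → u ∈ [a, b, c, d, w] := by
    intro u v huv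
    simpa using h u v huv
  have hm : ∀ u ∈ [a, b, c, d, w], ∃ i : Fin 5, u = [a, b, c, d, w].get i := by
    intro u hu
    obtain ⟨i, hi⟩ := List.mem_iff_get.1 hu
    exact ⟨i, hi.symm⟩
  refine ⟨[a, b, c, d, w].get, List.nodup_iff_injective_get.1 hnd, fun u v huv => ⟨hm u (h' u v huv), ?_⟩⟩
  exact hm v (h' v u (hs u v huv))

/-- Every pair meets the union of two disjoint pairs. -/
theorem CLS_meet {k : ℕ} {Q : Fin k → Fin k → Prop} (H : CLS_H Q) (a b c d : Fin k)
    (hnd : [a, b, c, d].Nodup) (hab : Q a b) (hcd : Q c d) (u v : Fin k) (huv : Q u v) :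
    (u = a ∨ u = b ∨ u = c ∨ u = d) ∨ (v = a ∨ v = b ∨ v = c ∨ v = d) := by
  by_contra hcon
  push Not at hcon
  have huv' : u ≠ v := fun e => H.ir v (e ▸ huv)
  simp only [List.nodup_cons, List.mem_cons, List.not_mem_nil, List.nodup_nil, or_false, not_or] at hnd
  exact H.n1 a b c d u v (CLS_nd6 (by grind)) hab hcd huv

/-- The neighbours of `d` if `a, b, w` is a triangle and `Q c w1`. -/
theorem CLS_A1 {k : ℕ} {Q : Fin k → Fin k → Prop} (H : CLS_H Q) (a b c d w w1 : Fin k)
    (hnd : [a, b, c, d, w, w1].Nodup) (hab : Q a b) (haw : Q a w) (hbw : Q b w) (hc : Q c w1) :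
    ∀ z, Q d z → z = c ∨ z = w1 := by
  intro z hz
  by_contra hcon
  push Not at hcon
  have hdz : d ≠ z := fun e => H.ir z (e ▸ hz)
  simp only [List.nodup_cons, List.mem_cons, List.not_mem_nil, List.nodup_nil, or_false, not_or] at hnd
  by_cases e1 : z = a
  · subst e1
    exact H.n1 d z b w c w1 (CLS_nd6 (by grind)) hz hbw hc
  by_cases e2 : z = b
  · subst e2
    exact H.n1 d z a w c w1 (CLS_nd6 (by grind)) hz haw hc
  by_cases e3 : z = w
  · subst e3
    exact H.n1 d z a b c w1 (CLS_nd6 (by grind)) hz hab hc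
  exact H.n1 d z a b c w1 (CLS_nd6 (by grind)) hz hab hc

/-- Two disjoint triangles. -/
theorem CLS_A2 {k : ℕ} {Q : Fin k → Fin k → Prop} (H : CLS_H Q) (a b c d w w1 : Fin k)
    (hnd : [a, b, c, d, w, w1].Nodup) (hab : Q a b) (hcd : Q c d) (haw : Q a w) (hbw : Q b w) (hc : Q c w1) :
    CLS_8 Q := by
  have hd := CLS_A1 H a b c d w w1 hnd hab haw hbw hc
  have hnd' := hnd
  simp only [List.nodup_cons, List.mem_cons, List.not_mem_nil, List.nodup_nil, or_false, not_or] at hnd'
  obtain ⟨z, hz1, hz2⟩ := H.n3 c d hcd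
  have hdw : Q d w1 := by
    rcases hd z hz2 with e | e
    · exact absurd e hz1
    · rw [← e]; exact hz2
  have hcn := CLS_A1 H a b d c w w1 (CLS_nd6 (by grind)) hab haw hbw hdw
  have han : ∀ z, Q a z → z = b ∨ z = w := by
    intro z hz
    by_contra hcon
    push Not at hcon
    have haz : a ≠ z := fun e => H.ir z (e ▸ hz)
    by_cases e1 : z = c
    · subst e1
      rcases hcn a (H.sy _ _ hz) with e | e <;> grind
    by_cases e2 : z = d
    · subst e2
      rcases hd a (H.sy _ _ hz) with e | e <;> grind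
    exact H.n1 a z b w c d (CLS_nd6 (by grind)) hz hbw hcd
  have hbn : ∀ z, Q b z → z = a ∨ z = w := by
    intro z hz
    by_contra hcon
    push Not at hcon
    have haz : b ≠ z := fun e => H.ir z (e ▸ hz)
    by_cases e1 : z = c
    · subst e1
      rcases hcn b (H.sy _ _ hz) with e | e <;> grind
    by_cases e2 : z = d
    · subst e2
      rcases hd b (H.sy _ _ hz) with e | e <;> grind
    exact H.n1 b z a w c d (CLS_nd6 (by grind)) hz haw hcd
  refine ⟨a, b, w, c, d, w1, CLS_nd6 (by grind), hab, hbw, H.sy _ _ haw, hcd, hdw, H.sy _ _ hc, ?_⟩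
  have key : ∀ u v, Q u v → (u = a ∨ u = b ∨ u = c ∨ u = d) →
      ((u = a ∨ u = b ∨ u = w) ∧ (v = a ∨ v = b ∨ v = w)) ∨
      ((u = c ∨ u = d ∨ u = w1) ∧ (v = c ∨ v = d ∨ v = w1)) := by
    intro u v huv hu
    rcases hu with e | e | e | e
    · subst e
      have := han v huv
      tauto
    · subst e
      have := hbn v huv
      tauto
    · subst e
      have := hcn v huv
      tauto
    · subst e
      have := hd v huv
      tauto
  intro u v huv
  rcases CLS_meet H a b c d (CLS_nd4 (by grind)) hab hcd u v huv with h | h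
  · exact key u v huv h
  · have := key v u (H.sy _ _ huv) h
    tauto

/-- Case A: `a` and `b` have a common neighbour outside. -/
theorem CLS_A {k : ℕ} {Q : Fin k → Fin k → Prop} (H : CLS_H Q) (a b c d w : Fin k)
    (hnd : [a, b, c, d, w].Nodup) (hab : Q a b) (hcd : Q c d) (haw : Q a w) (hbw : Q b w) :
    CLS_7 Q ∨ CLS_8 Q := by
  have hnd' := hnd
  simp only [List.nodup_cons, List.mem_cons, List.not_mem_nil, List.nodup_nil, or_false, not_or] at hnd'
  by_cases hc : ∃ w1, Q c w1 ∧ w1 ≠ a ∧ w1 ≠ b ∧ w1 ≠ c ∧ w1 ≠ d ∧ w1 ≠ w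
  · obtain ⟨w1, h1, h2⟩ := hc
    exact Or.inr (CLS_A2 H a b c d w w1 (CLS_nd6 (by grind)) hab hcd haw hbw h1)
  by_cases hd : ∃ w1, Q d w1 ∧ w1 ≠ a ∧ w1 ≠ b ∧ w1 ≠ c ∧ w1 ≠ d ∧ w1 ≠ w
  · obtain ⟨w1, h1, h2⟩ := hd
    exact Or.inr (CLS_A2 H a b d c w w1 (CLS_nd6 (by grind)) hab (H.sy _ _ hcd) haw hbw h1)
  left
  apply CLS_mk7 Q H.sy a b c d w hnd
  intro u v huv
  by_contra hcon
  push Not at hcon
  have huv' : u ≠ v := fun e => H.ir v (e ▸ huv)
  rcases CLS_meet H a b c d (CLS_nd4 (by grind)) hab hcd u v huv with h | h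
  · tauto
  · rcases h with e | e | e | e
    · subst e
      exact H.n1 u v b w c d (CLS_nd6 (by grind)) huv hbw hcd
    · subst e
      exact H.n1 u v a w c d (CLS_nd6 (by grind)) huv haw hcd
    · subst e
      exact hc ⟨u, H.sy _ _ huv, by grind⟩
    · subst e
      exact hd ⟨u, H.sy _ _ huv, by grind⟩

/-- Case B: `b` and `d` have no neighbours outside. -/
theorem CLS_B {k : ℕ} {Q : Fin k → Fin k → Prop} (H : CLS_H Q) (a b c d w : Fin k)
    (hnd : [a, b, c, d, w].Nodup) (hab : Q a b) (hcd : Q c d) (haw : Q a w)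
    (hb : ∀ z, Q b z → z = a ∨ z = c ∨ z = d) (hd : ∀ z, Q d z → z = a ∨ z = b ∨ z = c) :
    CLS_6 Q ∨ CLS_7 Q := by
  have hnd' := hnd
  simp only [List.nodup_cons, List.mem_cons, List.not_mem_nil, List.nodup_nil, or_false, not_or] at hnd'
  have hmeet := CLS_meet H a b c d (CLS_nd4 (by grind)) hab hcd
  by_cases hbd : Q b d
  · right
    by_cases hc : ∃ w', Q c w' ∧ w' ≠ a ∧ w' ≠ b ∧ w' ≠ c ∧ w' ≠ d
    · obtain ⟨w', h1, h2⟩ := hc
      have hw : ∀ z, Q a z → z ≠ a → z ≠ b → z ≠ c → z ≠ d → z = w' := by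
        intro z hz e1 e2 e3 e4
        by_contra e5
        exact H.n1 a z c w' b d (CLS_nd6 (by grind)) hz h1 hbd
      have hww : w = w' := hw w haw (by grind) (by grind) (by grind) (by grind)
      apply CLS_mk7 Q H.sy a b c d w hnd
      intro u v huv
      by_contra hcon
      push Not at hcon
      have huv' : u ≠ v := fun e => H.ir v (e ▸ huv)
      rcases hmeet u v huv with h | h
      · tauto
      · rcases h with e | e | e | e
        · subst e
          have := hw u (H.sy _ _ huv) (by grind) (by grind) (by grind) (by grind)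
          grind
        · subst e
          have := hb u (H.sy _ _ huv)
          grind
        · subst e
          exact H.n1 a w v u b d (CLS_nd6 (by grind)) haw (H.sy _ _ huv) hbd
        · subst e
          have := hd u (H.sy _ _ huv)
          grind
    · exfalso
      obtain ⟨t, ht1, ht2⟩ := H.n3 a w haw
      rcases hmeet w t ht2 with h | h
      · grind
      · rcases h with e | e | e | e
        · exact ht1 e
        · subst e
          have := hb w (H.sy _ _ ht2)
          grind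
        · subst e
          exact hc ⟨w, H.sy _ _ ht2, by grind⟩
        · subst e
          have := hd w (H.sy _ _ ht2)
          grind
  · -- all pairs contain `a` or `c`
    have hac : ∀ u v, Q u v → u = a ∨ u = c ∨ v = a ∨ v = c := by
      intro u v huv
      by_contra hcon
      push Not at hcon
      rcases hmeet u v huv with h | h
      · rcases h with e | e | e | e
        · tauto
        · subst e
          have h5 := hb v huv
          rcases h5 with e' | e' | e'
          · tauto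
          · tauto
          · subst e'
            exact hbd huv
        · tauto
        · subst e
          have h5 := hd v huv
          rcases h5 with e' | e' | e'
          · tauto
          · subst e'
            exact hbd (H.sy _ _ huv)
          · tauto
      · rcases h with e | e | e | e
        · tauto
        · subst e
          have h5 := hb u (H.sy _ _ huv)
          rcases h5 with e' | e' | e'
          · tauto
          · tauto
          · subst e'
            exact hbd (H.sy _ _ huv)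
        · tauto
        · subst e
          have h5 := hd u (H.sy _ _ huv)
          rcases h5 with e' | e' | e'
          · tauto
          · subst e'
            exact hbd huv
          · tauto
    have hca : ∀ z, Q c z → z ≠ a → Q a z := by
      intro z hz hza
      have hzc : z ≠ c := fun e => H.ir c (e ▸ hz)
      obtain ⟨t, ht1, ht2⟩ := H.n3 c z hz
      rcases hac z t ht2 with e | e | e | e
      · exact absurd e hza
      · exact absurd e hzc
      · rw [e] at ht2
        exact H.sy _ _ ht2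
      · exact absurd e ht1
    have hac' : ∀ z, Q a z → z ≠ c → Q c z := by
      intro z hz hzc
      have hza : z ≠ a := fun e => H.ir a (e ▸ hz)
      obtain ⟨t, ht1, ht2⟩ := H.n3 a z hz
      rcases hac z t ht2 with e | e | e | e
      · exact absurd e hza
      · exact absurd e hzc
      · exact absurd e ht1
      · rw [e] at ht2
        exact H.sy _ _ ht2
    have had : Q a d := hca d hcd (by grind)
    have hcb : Q c b := hac' b hab (by grind)
    have hcw : Q c w := hac' w haw (by grind)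
    by_cases h4 : ∃ z, Q a z ∧ z ≠ c ∧ z ≠ b ∧ z ≠ d ∧ z ≠ w
    · obtain ⟨z, hz, hz1, hz2, hz3, hz4⟩ := h4
      have hza : z ≠ a := fun e => H.ir a (e ▸ hz)
      left
      refine ⟨a, c, b, d, w, z, CLS_nd6 (by grind), hab, had, haw, hz, hcb, hcd, hcw, hac' z hz hz1, hac⟩
    · right
      apply CLS_mk7 Q H.sy a b c d w hnd
      intro u v huv
      by_contra hcon
      push Not at hcon
      rcases hac u v huv with e | e | e | e
      · tauto
      · tauto
      · rw [e] at huv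
        exact h4 ⟨u, H.sy _ _ huv, by tauto⟩
      · rw [e] at huv
        exact h4 ⟨u, hca u (H.sy _ _ huv) (by tauto), by tauto⟩

/-- Two disjoint pairs and a neighbour of `a` outside. -/
theorem CLS_W {k : ℕ} {Q : Fin k → Fin k → Prop} (H : CLS_H Q) (a b c d w : Fin k)
    (hnd : [a, b, c, d, w].Nodup) (hab : Q a b) (hcd : Q c d) (haw : Q a w) :
    CLS_6 Q ∨ CLS_7 Q ∨ CLS_8 Q := by
  have hnd' := hnd
  simp only [List.nodup_cons, List.mem_cons, List.not_mem_nil, List.nodup_nil, or_false, not_or] at hnd'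
  by_cases hb : ∃ z, Q b z ∧ z ≠ a ∧ z ≠ c ∧ z ≠ d
  · obtain ⟨z, hz, hz1, hz2, hz3⟩ := hb
    have hzb : b ≠ z := fun e => H.ir z (e ▸ hz)
    have hzw : z = w := by
      by_contra e
      exact H.n1 a w b z c d (CLS_nd6 (by grind)) haw hz hcd
    rw [hzw] at hz
    exact Or.inr (CLS_A H a b c d w hnd hab hcd haw hz)
  have hb' : ∀ z, Q b z → z = a ∨ z = c ∨ z = d := by
    intro z hz
    by_contra hcon
    push Not at hcon
    exact hb ⟨z, hz, hcon⟩
  by_cases hd : ∃ z, Q d z ∧ z ≠ a ∧ z ≠ b ∧ z ≠ c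
  · by_cases hc : ∃ z, Q c z ∧ z ≠ a ∧ z ≠ b ∧ z ≠ d
    · obtain ⟨z, hz, hz1, hz2, hz3⟩ := hd
      obtain ⟨z', hz', hz1', hz2', hz3'⟩ := hc
      have hzd : d ≠ z := fun e => H.ir z (e ▸ hz)
      have hzc : c ≠ z' := fun e => H.ir z' (e ▸ hz')
      have hzz : z = z' := by
        by_contra e
        exact H.n1 c z' d z a b (CLS_nd6 (by grind)) hz' hz hab
      rw [hzz] at hz hzd hz1 hz2 hz3
      exact Or.inr (CLS_A H c d a b z' (CLS_nd5 (by grind)) hcd hab hz' hz)
    · have hc' : ∀ z, Q c z → z = a ∨ z = b ∨ z = d := by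
        intro z hz
        by_contra hcon
        push Not at hcon
        exact hc ⟨z, hz, hcon⟩
      have h := CLS_B H a b d c w (CLS_nd5 (by grind)) hab (H.sy _ _ hcd) haw
        (fun z hz => by have := hb' z hz; tauto) hc'
      tauto
  · have hd' : ∀ z, Q d z → z = a ∨ z = b ∨ z = c := by
      intro z hz
      by_contra hcon
      push Not at hcon
      exact hd ⟨z, hz, hcon⟩
    have h := CLS_B H a b c d w hnd hab hcd haw hb' hd'
    tauto

theorem stmt_CLS : Stmt_CLS := by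
  intro k Q hs hi
  by_cases h0 : ∀ a b, ¬ Q a b
  · exact Or.inl h0
  right
  by_cases h1 : ∃ a1 b1 a2 b2 a3 b3, [a1, b1, a2, b2, a3, b3].Nodup ∧ Q a1 b1 ∧ Q a2 b2 ∧ Q a3 b3
  · exact Or.inl h1
  right; right
  by_cases h3 : ∃ x y, Q x y ∧ ∀ u v, Q u v → u ≠ x → v ≠ x → u ≠ y ∧ v ≠ y
  · exact Or.inl h3
  right
  have H : CLS_H Q := by
    refine ⟨hs, hi, ?_, ?_⟩
    · intro a1 b1 a2 b2 a3 b3 hnd q1 q2 q3
      exact h1 ⟨a1, b1, a2, b2, a3, b3, hnd, q1, q2, q3⟩
    · intro x y hxy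
      by_contra hcon
      push Not at hcon
      apply h3
      refine ⟨x, y, hxy, ?_⟩
      intro u v huv hux hvx
      constructor
      · intro e
        rw [e] at huv
        exact hcon v hvx huv
      · intro e
        rw [e] at huv
        exact hcon u hux (hs _ _ huv)
  push Not at h0
  by_cases h2 : ∃ a b c d, [a, b, c, d].Nodup ∧ Q a b ∧ Q c d
  · right
    obtain ⟨a, b, c, d, hnd, hab, hcd⟩ := h2
    have hnd' := hnd
    simp only [List.nodup_cons, List.mem_cons, List.not_mem_nil, List.nodup_nil, or_false, not_or] at hnd'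
    by_cases h5 : ∀ u v, Q u v → u = a ∨ u = b ∨ u = c ∨ u = d
    · exact Or.inl ⟨a, b, c, d, hnd, fun u v huv => ⟨h5 u v huv, h5 v u (hs _ _ huv)⟩⟩
    right
    push Not at h5
    obtain ⟨w, v, hwv, e1, e2, e3, e4⟩ := h5
    have hv := CLS_meet H a b c d hnd hab hcd w v hwv
    have hW : CLS_6 Q ∨ CLS_7 Q ∨ CLS_8 Q := by
      rcases hv with h | h
      · exfalso
        tauto
      · rcases h with e | e | e | e
        · rw [e] at hwv
          exact CLS_W H a b c d w (CLS_nd5 (by grind)) hab hcd (hs _ _ hwv)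
        · rw [e] at hwv
          exact CLS_W H b a c d w (CLS_nd5 (by grind)) (hs _ _ hab) hcd (hs _ _ hwv)
        · rw [e] at hwv
          exact CLS_W H c d a b w (CLS_nd5 (by grind)) hcd hab (hs _ _ hwv)
        · rw [e] at hwv
          exact CLS_W H d c a b w (CLS_nd5 (by grind)) (hs _ _ hcd) hab (hs _ _ hwv)
    exact hW
  · left
    obtain ⟨a, b, hab⟩ := h0
    have hne : a ≠ b := fun e => hi b (e ▸ hab)
    obtain ⟨c, hc1, hc2⟩ := H.n3 a b hab
    obtain ⟨d, hd1, hd2⟩ := H.n3 b a (hs _ _ hab)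
    have hbc : b ≠ c := fun e => hi c (e ▸ hc2)
    have had : a ≠ d := fun e => hi d (e ▸ hd2)
    have hcd : c = d := by
      by_contra e
      exact h2 ⟨b, c, a, d, CLS_nd4 (by grind), hc2, hd2⟩
    rw [← hcd] at hd2
    refine ⟨a, b, c, hab, hc2, hs _ _ hd2, ?_⟩
    have key : ∀ u v, Q u v → u = a ∨ u = b ∨ u = c := by
      intro u v huv
      by_contra hcon
      push Not at hcon
      have huv' : u ≠ v := fun e => hi v (e ▸ huv)
      by_cases f1 : v = a
      · exact h2 ⟨u, v, b, c, CLS_nd4 (by grind), huv, hc2⟩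
      by_cases f2 : v = b
      · exact h2 ⟨u, v, a, c, CLS_nd4 (by grind), huv, hd2⟩
      exact h2 ⟨u, v, a, b, CLS_nd4 (by grind), huv, hab⟩
    exact fun u v huv => ⟨key u v huv, key v u (hs _ _ huv)⟩

end Pool.Agent.Work.MP_1ce445_k4
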