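import Pool.Agent.Work.MP_1ce445_k4.Interface

namespace Pool.Agent.Work.MP_1ce445_k4

open Finset Pool.Agent.Work.MP_1ce445_co_56 Pool.Agent.Work.MP_1ce445_lin

/-- the weights -/
noncomputable def GB3_l : Fin 5 → ℝ := ![20 / 9, 20 / 9, 40 / 27, 40 / 27, 40 / 27]
/-- the multipliers -/
noncomputable def GB3_mu : Fin 6 → ℝ := ![10 / 27, 10 / 27, 10 / 27, 10 / 27, 10 / 27, 10 / 27]
/-- first points -/
def GB3_a : Fin 6 → Fin 5 := ![0, 0, 0, 1, 1, 1]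
/-- second points -/
def GB3_b : Fin 6 → Fin 5 := ![2, 3, 4, 2, 3, 4]

theorem GB3_bool (t0 t1 t2 t3 t4 : Bool) :
    (40 / 9 : ℝ) ≤ max 3 ((((if t0 = true then 1 else 0) + (if t1 = true then 1 else 0) +
      (if t2 = true then 1 else 0) + (if t3 = true then 1 else 0) +
      (if t4 = true then 1 else 0) : ℕ)) : ℝ) +
      ((if t0 = true then (20 / 9 : ℝ) - 1 else 0) + (if t1 = true then (20 / 9 : ℝ) - 1 else 0) +
        (if t2 = true then (40 / 27 : ℝ) - 1 else 0) +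
        (if t3 = true then (40 / 27 : ℝ) - 1 else 0) +
        (if t4 = true then (40 / 27 : ℝ) - 1 else 0)) +
      ((if t0 = false ∧ t2 = false then (10 / 27 : ℝ) else 0) +
        (if t0 = false ∧ t3 = false then (10 / 27 : ℝ) else 0) +
        (if t0 = false ∧ t4 = false then (10 / 27 : ℝ) else 0) +
        (if t1 = false ∧ t2 = false then (10 / 27 : ℝ) else 0) +
        (if t1 = false ∧ t3 = false then (10 / 27 : ℝ) else 0) +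
        (if t1 = false ∧ t4 = false then (10 / 27 : ℝ) else 0)) := by
  cases t0 <;> cases t1 <;> cases t2 <;> cases t3 <;> cases t4 <;> norm_num

theorem GB3_two (t0 t1 t2 t3 t4 : Prop) [Decidable t0] [Decidable t1] [Decidable t2]
    [Decidable t3] [Decidable t4]
    (h : (t0 ∧ t1 ∧ ¬ t2 ∧ ¬ t3 ∧ ¬ t4) ∨ (t0 ∧ ¬ t1 ∧ t2 ∧ ¬ t3 ∧ ¬ t4) ∨
      (t0 ∧ ¬ t1 ∧ ¬ t2 ∧ t3 ∧ ¬ t4) ∨ (t0 ∧ ¬ t1 ∧ ¬ t2 ∧ ¬ t3 ∧ t4) ∨
      (¬ t0 ∧ t1 ∧ t2 ∧ ¬ t3 ∧ ¬ t4) ∨ (¬ t0 ∧ t1 ∧ ¬ t2 ∧ t3 ∧ ¬ t4) ∨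
      (¬ t0 ∧ t1 ∧ ¬ t2 ∧ ¬ t3 ∧ t4)) :
    (40 / 9 : ℝ) ≤ 2 +
      ((if t0 then (20 / 9 : ℝ) - 1 else 0) + (if t1 then (20 / 9 : ℝ) - 1 else 0) +
        (if t2 then (40 / 27 : ℝ) - 1 else 0) + (if t3 then (40 / 27 : ℝ) - 1 else 0) +
        (if t4 then (40 / 27 : ℝ) - 1 else 0)) +
      ((if ¬ t0 ∧ ¬ t2 then (10 / 27 : ℝ) else 0) +
        (if ¬ t0 ∧ ¬ t3 then (10 / 27 : ℝ) else 0) +
        (if ¬ t0 ∧ ¬ t4 then (10 / 27 : ℝ) else 0) +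
        (if ¬ t1 ∧ ¬ t2 then (10 / 27 : ℝ) else 0) +
        (if ¬ t1 ∧ ¬ t3 then (10 / 27 : ℝ) else 0) +
        (if ¬ t1 ∧ ¬ t4 then (10 / 27 : ℝ) else 0)) := by
  rcases h with ⟨h0, h1, h2, h3, h4⟩ | ⟨h0, h1, h2, h3, h4⟩ | ⟨h0, h1, h2, h3, h4⟩ |
    ⟨h0, h1, h2, h3, h4⟩ | ⟨h0, h1, h2, h3, h4⟩ | ⟨h0, h1, h2, h3, h4⟩ |
    ⟨h0, h1, h2, h3, h4⟩ <;> simp only [h0, h1, h2, h3, h4] <;> norm_num

/-- the edges -/
theorem GB3_edges (i j : Fin 5) (h : ad LB3 i j = true) :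
    ((i = 0 ∧ j = 1) ∨ (i = 1 ∧ j = 0)) ∨ ((i = 0 ∧ j = 2) ∨ (i = 2 ∧ j = 0)) ∨
    ((i = 0 ∧ j = 3) ∨ (i = 3 ∧ j = 0)) ∨ ((i = 0 ∧ j = 4) ∨ (i = 4 ∧ j = 0)) ∨
    ((i = 1 ∧ j = 2) ∨ (i = 2 ∧ j = 1)) ∨ ((i = 1 ∧ j = 3) ∨ (i = 3 ∧ j = 1)) ∨
    ((i = 1 ∧ j = 4) ∨ (i = 4 ∧ j = 1)) := by
  revert i j
  decide

theorem stmt_GB3 (h1 : Stmt_CER) : Stmt_GB3 := by
  intro V _ k M T c hK hIs
  obtain ⟨p, hp, h2, hE⟩ := hIs
  have key := h1 M T c hK 5 6 p GB3_l GB3_a GB3_b GB3_mu (40 / 9) hp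
    (by
      intro i
      fin_cases i <;> simp [GB3_l] <;> norm_num)
    (by
      intro s
      fin_cases s <;> simp [GB3_mu] <;> norm_num)
    (by
      intro s
      apply hE
      revert s
      decide)
    (by
      intro v hv
      obtain ⟨i, j, hij, hTv⟩ := h2 v hv
      have hmem : ∀ x : Fin 5, p x ∈ T v ↔ (x = i ∨ x = j) := by
        intro x
        rw [hTv, Finset.mem_insert, Finset.mem_singleton, hp.eq_iff, hp.eq_iff]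
      simp only [Fin.sum_univ_five, Fin.sum_univ_six, hmem]
      rcases GB3_edges i j hij with (⟨rfl, rfl⟩ | ⟨rfl, rfl⟩) | (⟨rfl, rfl⟩ | ⟨rfl, rfl⟩) |
        (⟨rfl, rfl⟩ | ⟨rfl, rfl⟩) | (⟨rfl, rfl⟩ | ⟨rfl, rfl⟩) | (⟨rfl, rfl⟩ | ⟨rfl, rfl⟩) |
        (⟨rfl, rfl⟩ | ⟨rfl, rfl⟩) | (⟨rfl, rfl⟩ | ⟨rfl, rfl⟩) <;>
      exact GB3_two _ _ _ _ _ (by simp))
    (by
      intro t
      have hb := GB3_bool (t 0) (t 1) (t 2) (t 3) (t 4)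
      rw [Finset.card_filter]
      simp only [Fin.sum_univ_five, Fin.sum_univ_six]
      exact hb)
  refine key.trans ?_
  have e1 : ∑ i, (GB3_l i - 1 - Real.log (GB3_l i)) =
      35 / 9 - 2 * Real.log (20 / 9) - 3 * Real.log (40 / 27) := by
    rw [Fin.sum_univ_five]
    show (20 / 9 - 1 - Real.log (20 / 9)) + (20 / 9 - 1 - Real.log (20 / 9)) +
      (40 / 27 - 1 - Real.log (40 / 27)) + (40 / 27 - 1 - Real.log (40 / 27)) +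
      (40 / 27 - 1 - Real.log (40 / 27)) = _
    ring
  have e2 : ∑ s, GB3_mu s = 20 / 9 := by
    rw [Fin.sum_univ_six]
    show (10 / 27 : ℝ) + 10 / 27 + 10 / 27 + 10 / 27 + 10 / 27 + 10 / 27 = 20 / 9
    norm_num
  rw [e1, e2]
  have e3 : (35 / 9 - 2 * Real.log (20 / 9) - 3 * Real.log (40 / 27) - 40 / 9 +
      c * (20 / 9) : ℝ) = (20 / 9 * (c - 1 / 4)) + (-(Real.log (25600000 / 1594323))) := by
    have g1 : Real.log (25600000 / 1594323) = 2 * Real.log (20 / 9) + 3 * Real.log (40 / 27) := by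
      rw [show (25600000 / 1594323 : ℝ) = (20 / 9) ^ 2 * (40 / 27) ^ 3 by norm_num,
        Real.log_mul (by norm_num) (by norm_num), Real.log_pow, Real.log_pow]
      norm_num
    rw [g1]
    ring
  rw [e3, Real.exp_add, Real.exp_neg (Real.log (25600000 / 1594323)),
    Real.exp_log (by norm_num)]
  have e5 : Real.exp (20 / 9 * (c - 1 / 4)) ≤ Real.exp (7 * (c - 1 / 4)) := by
    apply Real.exp_le_exp.mpr
    have := hK.cl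
    nlinarith
  have e6 : 0 < Real.exp (20 / 9 * (c - 1 / 4)) := Real.exp_pos _
  have e8 : Real.exp (20 / 9 * (c - 1 / 4)) * (25600000 / 1594323 : ℝ)⁻¹ ≤
      Real.exp (20 / 9 * (c - 1 / 4)) / 16 := by
    rw [div_eq_mul_inv]
    apply mul_le_mul_of_nonneg_left _ e6.le
    norm_num
  refine e8.trans ?_
  linarith

end Pool.Agent.Work.MP_1ce445_k4
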