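import Pool.Agent.Work.MP_1ce445_k4.Interface

/-!
# Block GC5 (MP_1ce445_co, theorem K4U): the 5-cycle (helper26, after helper48 block GBT)
-/

namespace Pool.Agent.Work.MP_1ce445_k4

open Finset Pool.Agent.Work.MP_1ce445_co_56 Pool.Agent.Work.MP_1ce445_lin

theorem GC5_card {m : ℕ} (t : Fin m → Bool) :
    (((univ.filter (fun i => t i = true)).card : ℕ) : ℝ) =
      ∑ i, if t i = true then (1 : ℝ) else 0 := by
  rw [← Finset.sum_filter, Finset.sum_const, nsmul_eq_mul, mul_one]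

theorem GC5_fin2 (t : Fin 5 → Bool) (i j : Fin 5) (hij : ad LC5 i j = true)
    (ht : ∀ x, t x = decide (x = i ∨ x = j)) :
    (9 / 2 : ℝ) ≤ 2 + (∑ i, if t i = true then (7 / 4 : ℝ) - 1 else 0) +
      ∑ s : Fin 3, if t ((![0, 2, 3] : Fin 3 → Fin 5) s) = false ∧
        t ((![1, 3, 4] : Fin 3 → Fin 5) s) = false then (1 : ℝ) else 0 := by
  have e0 := ht 0
  have e1 := ht 1
  have e2 := ht 2
  have e3 := ht 3
  have e4 := ht 4
  clear ht
  revert hij e0 e1 e2 e3 e4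
  fin_cases i <;> fin_cases j <;> intro hij e0 e1 e2 e3 e4 <;>
    first
    | (exfalso; revert hij; decide)
    | (simp at e0 e1 e2 e3 e4
       simp only [Fin.sum_univ_five, Fin.sum_univ_three]
       simp [e0, e1, e2, e3, e4]
       norm_num)

theorem GC5_fin3 (t : Fin 5 → Bool) :
    (9 / 2 : ℝ) ≤ max 3 (((univ.filter (fun i => t i = true)).card : ℕ) : ℝ) +
      (∑ i, if t i = true then (7 / 4 : ℝ) - 1 else 0) +
      ∑ s : Fin 3, if t ((![0, 2, 3] : Fin 3 → Fin 5) s) = false ∧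
        t ((![1, 3, 4] : Fin 3 → Fin 5) s) = false then (1 : ℝ) else 0 := by
  rw [GC5_card]
  have h3 := le_max_left (3 : ℝ) (∑ i, if t i = true then (1 : ℝ) else 0)
  have h4 := le_max_right (3 : ℝ) (∑ i, if t i = true then (1 : ℝ) else 0)
  generalize max (3 : ℝ) (∑ i, if t i = true then (1 : ℝ) else 0) = w at h3 h4 ⊢
  simp only [Fin.sum_univ_five, Fin.sum_univ_three] at h4 ⊢
  rcases e0 : t 0 with _ | _ <;> rcases e1 : t 1 with _ | _ <;> rcases e2 : t 2 with _ | _ <;>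
    rcases e3 : t 3 with _ | _ <;> rcases e4 : t 4 with _ | _ <;>
    simp [e0, e1, e2, e3, e4] at h4 ⊢ <;>
    norm_num at h4 ⊢ <;> linarith

theorem GC5_exp (c : ℝ) (hc : 1 / 4 ≤ c) :
    Real.exp (∑ _i : Fin 5, ((7 / 4 : ℝ) - 1 - Real.log (7 / 4)) - 9 / 2 +
      c * ∑ _s : Fin 3, (1 : ℝ)) ≤ Real.exp (7 * (c - 1 / 4)) / 16 := by
  have e1 : ∑ _i : Fin 5, ((7 / 4 : ℝ) - 1 - Real.log (7 / 4)) - 9 / 2 +
      c * ∑ _s : Fin 3, (1 : ℝ) = 3 * (c - 1 / 4) - 5 * Real.log (7 / 4) := by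
    simp only [Finset.sum_const, Finset.card_univ, Fintype.card_fin, nsmul_eq_mul]
    push_cast
    ring
  rw [e1, Real.exp_sub]
  have e2 : Real.exp (5 * Real.log (7 / 4)) = (7 / 4) ^ 5 := by
    rw [← Real.exp_log (show (0 : ℝ) < (7 / 4) ^ 5 by positivity), Real.log_pow]
    norm_num
  rw [e2]
  have h1 : Real.exp (3 * (c - 1 / 4)) ≤ Real.exp (7 * (c - 1 / 4)) :=
    Real.exp_le_exp.2 (by linarith)
  have h2 : (16 : ℝ) ≤ (7 / 4) ^ 5 := by norm_num
  exact div_le_div₀ (Real.exp_pos _).le h1 (by norm_num) h2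

theorem stmt_GC5 (h1 : Stmt_CER) : Stmt_GC5 := by
  classical
  intro V _ k M T c hK hIs
  obtain ⟨p, hinj, h2, h3⟩ := hIs
  have hR : ∀ s : Fin 3, R T (p ((![0, 2, 3] : Fin 3 → Fin 5) s))
      (p ((![1, 3, 4] : Fin 3 → Fin 5) s)) := by
    intro s
    fin_cases s
    · exact h3 0 1 (by decide)
    · exact h3 2 3 (by decide)
    · exact h3 3 4 (by decide)
  refine le_trans (h1 M T c hK 5 3 p (fun _ => 7 / 4) ![0, 2, 3] ![1, 3, 4]
    (fun _ => 1) (9 / 2) hinj (fun _ => by norm_num) (fun _ => by norm_num) hR ?_ ?_)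
    (GC5_exp c hK.cl)
  · intro v hv
    obtain ⟨i, j, hij, hT⟩ := h2 v hv
    have h4 := GC5_fin2 (fun x => decide (p x ∈ T v)) i j hij (by
      intro x
      rw [hT]
      simp only [Finset.mem_insert, Finset.mem_singleton, hinj.eq_iff])
    simpa only [decide_eq_true_eq, decide_eq_false_iff_not] using h4
  · intro t
    exact GC5_fin3 t

end Pool.Agent.Work.MP_1ce445_k4
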