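import Pool.Agent.Work.MP_1ce445_k4.Interface

/-! # Block GG7 (MP_1ce445_co, theorem K4U) (helper89) -/

namespace Pool.Agent.Work.MP_1ce445_k4

open Finset Pool.Agent.Work.MP_1ce445_co_56 Pool.Agent.Work.MP_1ce445_lin

/-- the weights -/
noncomputable def GG7_l : Fin 5 → ℝ := ![2, 2, 8 / 5, 8 / 5, 4 / 3]
/-- the multipliers -/
noncomputable def GG7_mu : Fin 8 → ℝ :=
  ![3 / 20, 3 / 10, 3 / 10, 4 / 5, 3 / 10, 3 / 10, 4 / 5, 4 / 5]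
/-- first points -/
def GG7_a : Fin 8 → Fin 5 := ![0, 0, 0, 0, 1, 1, 1, 2]
/-- second points -/
def GG7_b : Fin 8 → Fin 5 := ![1, 2, 3, 4, 2, 3, 4, 3]

theorem GG7_bool (t0 t1 t2 t3 t4 : Bool) :
    (14 / 3 : ℝ) ≤ max 3 ((((if t0 = true then 1 else 0) + (if t1 = true then 1 else 0) +
      (if t2 = true then 1 else 0) + (if t3 = true then 1 else 0) +
      (if t4 = true then 1 else 0) : ℕ)) : ℝ) +
      ((if t0 = true then (2 : ℝ) - 1 else 0) + (if t1 = true then (2 : ℝ) - 1 else 0) +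
        (if t2 = true then (8 / 5 : ℝ) - 1 else 0) + (if t3 = true then (8 / 5 : ℝ) - 1 else 0) +
        (if t4 = true then (4 / 3 : ℝ) - 1 else 0)) +
      ((if t0 = false ∧ t1 = false then (3 / 20 : ℝ) else 0) +
        (if t0 = false ∧ t2 = false then (3 / 10 : ℝ) else 0) +
        (if t0 = false ∧ t3 = false then (3 / 10 : ℝ) else 0) +
        (if t0 = false ∧ t4 = false then (4 / 5 : ℝ) else 0) +
        (if t1 = false ∧ t2 = false then (3 / 10 : ℝ) else 0) +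
        (if t1 = false ∧ t3 = false then (3 / 10 : ℝ) else 0) +
        (if t1 = false ∧ t4 = false then (4 / 5 : ℝ) else 0) +
        (if t2 = false ∧ t3 = false then (4 / 5 : ℝ) else 0)) := by
  cases t0 <;> cases t1 <;> cases t2 <;> cases t3 <;> cases t4 <;> norm_num

theorem GG7_two (t0 t1 t2 t3 t4 : Prop) [Decidable t0] [Decidable t1] [Decidable t2]
    [Decidable t3] [Decidable t4]
    (h : (t0 ∧ t1 ∧ ¬ t2 ∧ ¬ t3 ∧ ¬ t4) ∨ (t0 ∧ ¬ t1 ∧ t2 ∧ ¬ t3 ∧ ¬ t4) ∨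
      (t0 ∧ ¬ t1 ∧ ¬ t2 ∧ t3 ∧ ¬ t4) ∨ (t0 ∧ ¬ t1 ∧ ¬ t2 ∧ ¬ t3 ∧ t4) ∨
      (¬ t0 ∧ t1 ∧ t2 ∧ ¬ t3 ∧ ¬ t4) ∨ (¬ t0 ∧ t1 ∧ ¬ t2 ∧ t3 ∧ ¬ t4) ∨
      (¬ t0 ∧ t1 ∧ ¬ t2 ∧ ¬ t3 ∧ t4) ∨ (¬ t0 ∧ ¬ t1 ∧ t2 ∧ t3 ∧ ¬ t4)) :
    (14 / 3 : ℝ) ≤ 2 +
      ((if t0 then (2 : ℝ) - 1 else 0) + (if t1 then (2 : ℝ) - 1 else 0) +
        (if t2 then (8 / 5 : ℝ) - 1 else 0) + (if t3 then (8 / 5 : ℝ) - 1 else 0) +
        (if t4 then (4 / 3 : ℝ) - 1 else 0)) +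
      ((if ¬ t0 ∧ ¬ t1 then (3 / 20 : ℝ) else 0) +
        (if ¬ t0 ∧ ¬ t2 then (3 / 10 : ℝ) else 0) +
        (if ¬ t0 ∧ ¬ t3 then (3 / 10 : ℝ) else 0) +
        (if ¬ t0 ∧ ¬ t4 then (4 / 5 : ℝ) else 0) +
        (if ¬ t1 ∧ ¬ t2 then (3 / 10 : ℝ) else 0) +
        (if ¬ t1 ∧ ¬ t3 then (3 / 10 : ℝ) else 0) +
        (if ¬ t1 ∧ ¬ t4 then (4 / 5 : ℝ) else 0) +
        (if ¬ t2 ∧ ¬ t3 then (4 / 5 : ℝ) else 0)) := by
  rcases h with ⟨h0, h1, h2, h3, h4⟩ | ⟨h0, h1, h2, h3, h4⟩ | ⟨h0, h1, h2, h3, h4⟩ |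
    ⟨h0, h1, h2, h3, h4⟩ | ⟨h0, h1, h2, h3, h4⟩ | ⟨h0, h1, h2, h3, h4⟩ |
    ⟨h0, h1, h2, h3, h4⟩ | ⟨h0, h1, h2, h3, h4⟩ <;>
    simp only [h0, h1, h2, h3, h4] <;> norm_num

/-- the edges -/
theorem GG7_edges (i j : Fin 5) (h : ad LG7 i j = true) :
    ((i = 0 ∧ j = 1) ∨ (i = 1 ∧ j = 0)) ∨ ((i = 0 ∧ j = 2) ∨ (i = 2 ∧ j = 0)) ∨
    ((i = 0 ∧ j = 3) ∨ (i = 3 ∧ j = 0)) ∨ ((i = 0 ∧ j = 4) ∨ (i = 4 ∧ j = 0)) ∨
    ((i = 1 ∧ j = 2) ∨ (i = 2 ∧ j = 1)) ∨ ((i = 1 ∧ j = 3) ∨ (i = 3 ∧ j = 1)) ∨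
    ((i = 1 ∧ j = 4) ∨ (i = 4 ∧ j = 1)) ∨ ((i = 2 ∧ j = 3) ∨ (i = 3 ∧ j = 2)) := by
  revert i j
  decide

theorem stmt_GG7 (h1 : Stmt_CER) : Stmt_GG7 := by
  intro V _ k M T c hK hIs
  obtain ⟨p, hp, h2, hE⟩ := hIs
  have key := h1 M T c hK 5 8 p GG7_l GG7_a GG7_b GG7_mu (14 / 3) hp
    (by
      intro i
      fin_cases i <;> simp [GG7_l] <;> norm_num)
    (by
      intro s
      fin_cases s <;> simp [GG7_mu] <;> norm_num)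
    (by
      intro s
      apply hE
      revert s
      decide)
    (by
      intro v hv
      obtain ⟨i, j, hij, hTv⟩ := h2 v hv
      have hmem : ∀ x : Fin 5, p x ∈ T v ↔ (x = i ∨ x = j) := by
        intro x
        rw [hTv, Finset.mem_insert, Finset.mem_singleton, hp.eq_iff, hp.eq_iff]
      simp only [Fin.sum_univ_five, Fin.sum_univ_eight, hmem]
      rcases GG7_edges i j hij with (⟨rfl, rfl⟩ | ⟨rfl, rfl⟩) | (⟨rfl, rfl⟩ | ⟨rfl, rfl⟩) |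
        (⟨rfl, rfl⟩ | ⟨rfl, rfl⟩) | (⟨rfl, rfl⟩ | ⟨rfl, rfl⟩) | (⟨rfl, rfl⟩ | ⟨rfl, rfl⟩) |
        (⟨rfl, rfl⟩ | ⟨rfl, rfl⟩) | (⟨rfl, rfl⟩ | ⟨rfl, rfl⟩) | (⟨rfl, rfl⟩ | ⟨rfl, rfl⟩) <;>
      exact GG7_two _ _ _ _ _ (by simp))
    (by
      intro t
      have hb := GG7_bool (t 0) (t 1) (t 2) (t 3) (t 4)
      rw [Finset.card_filter]
      simp only [Fin.sum_univ_five, Fin.sum_univ_eight]
      exact hb)
  refine key.trans ?_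
  have e1 : ∑ i, (GG7_l i - 1 - Real.log (GG7_l i)) =
      53 / 15 - 2 * Real.log 2 - 2 * Real.log (8 / 5) - Real.log (4 / 3) := by
    rw [Fin.sum_univ_five]
    show (2 - 1 - Real.log 2) + (2 - 1 - Real.log 2) + (8 / 5 - 1 - Real.log (8 / 5)) +
      (8 / 5 - 1 - Real.log (8 / 5)) + (4 / 3 - 1 - Real.log (4 / 3)) = _
    ring
  have e2 : ∑ s, GG7_mu s = 15 / 4 := by
    rw [Fin.sum_univ_eight]
    show (3 / 20 : ℝ) + 3 / 10 + 3 / 10 + 4 / 5 + 3 / 10 + 3 / 10 + 4 / 5 + 4 / 5 = 15 / 4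
    norm_num
  rw [e1, e2]
  have e3 : (53 / 15 - 2 * Real.log 2 - 2 * Real.log (8 / 5) - Real.log (4 / 3) - 14 / 3 +
      c * (15 / 4) : ℝ) =
      (15 / 4 * (c - 1 / 4)) + (-(47 / 240)) + (-(Real.log 4)) + (-(Real.log (64 / 25))) +
        (-(Real.log (4 / 3))) := by
    have g1 : Real.log 4 = 2 * Real.log 2 := by
      rw [show (4 : ℝ) = 2 ^ 2 by norm_num, Real.log_pow]
      norm_num
    have g2 : Real.log (64 / 25) = 2 * Real.log (8 / 5) := by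
      rw [show (64 / 25 : ℝ) = (8 / 5) ^ 2 by norm_num, Real.log_pow]
      norm_num
    rw [g1, g2]
    ring
  rw [e3, Real.exp_add, Real.exp_add, Real.exp_add, Real.exp_add, Real.exp_neg (Real.log 4),
    Real.exp_neg (Real.log (64 / 25)), Real.exp_neg (Real.log (4 / 3)),
    Real.exp_log (by norm_num), Real.exp_log (by norm_num), Real.exp_log (by norm_num)]
  have e4 : Real.exp (-(47 / 240)) ≤ 64 / 75 := by
    rw [Real.exp_neg]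
    have g1 : (47 / 240 : ℝ) + 1 ≤ Real.exp (47 / 240) := Real.add_one_le_exp _
    rw [inv_le_comm₀ (Real.exp_pos _) (by norm_num)]
    norm_num at g1 ⊢
    linarith
  have e5 : Real.exp (15 / 4 * (c - 1 / 4)) ≤ Real.exp (7 * (c - 1 / 4)) := by
    apply Real.exp_le_exp.mpr
    have := hK.cl
    nlinarith
  have e7 : Real.exp (15 / 4 * (c - 1 / 4)) * Real.exp (-(47 / 240)) ≤
      Real.exp (7 * (c - 1 / 4)) * (64 / 75) :=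
    mul_le_mul e5 e4 (Real.exp_pos _).le (Real.exp_pos _).le
  have e8 : Real.exp (15 / 4 * (c - 1 / 4)) * Real.exp (-(47 / 240)) * (4 : ℝ)⁻¹ *
      (64 / 25 : ℝ)⁻¹ * (4 / 3 : ℝ)⁻¹ =
      (Real.exp (15 / 4 * (c - 1 / 4)) * Real.exp (-(47 / 240))) * (75 / 1024) := by
    norm_num
    ring
  rw [e8]
  linarith

end Pool.Agent.Work.MP_1ce445_k4
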