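import Pool.Agent.Work.MP_1ce445_k4.Interface

/-! Block GKE. -/

set_option autoImplicit false

namespace Pool.Agent.Work.MP_1ce445_k4

open Finset Pool.Agent.Work.MP_1ce445_co_56 Pool.Agent.Work.MP_1ce445_lin

def GKE_a : Fin 9 → Fin 5 := ![0, 0, 1, 0, 0, 1, 1, 2, 2]

def GKE_b : Fin 9 → Fin 5 := ![1, 2, 2, 3, 4, 3, 4, 3, 4]

def GKE_w : Fin 5 → ℕ := ![36, 36, 36, 18, 18]

def GKE_m : Fin 9 → ℕ := ![18, 18, 18, 29, 29, 29, 29, 29, 29]

theorem GKE_ad : ∀ s : Fin 9, ad LKE (GKE_a s) (GKE_b s) = true := by decide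

theorem GKE_two : ∀ i j : Fin 5, ad LKE i j = true →
    210 ≤ 80 + (∑ x : Fin 5, if (x = i ∨ x = j) then GKE_w x else 0) +
      ∑ s : Fin 9, if ¬ (GKE_a s = i ∨ GKE_a s = j) ∧ ¬ (GKE_b s = i ∨ GKE_b s = j)
        then GKE_m s else 0 := by decide

set_option maxRecDepth 100000 in
theorem GKE_three : ∀ t : Fin 5 → Bool,
    210 ≤ 40 * max 3 (univ.filter (fun i : Fin 5 => t i = true)).card +
      (∑ i : Fin 5, if t i = true then GKE_w i else 0) +
      ∑ s : Fin 9, if t (GKE_a s) = false ∧ t (GKE_b s) = false then GKE_m s else 0 := by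
  decide

theorem GKE_sum {r : ℕ} (P : Fin r → Prop) [DecidablePred P] (w : Fin r → ℕ) :
    (∑ s, if P s then (w s : ℝ) / 40 else 0) =
      ((∑ s, if P s then w s else 0 : ℕ) : ℝ) / 40 := by
  push_cast
  rw [Finset.sum_div]
  apply Finset.sum_congr rfl
  intro s _
  split_ifs <;> simp

theorem stmt_GKE (hC : Stmt_CER) : Stmt_GKE := by
  intro V _ k M T c hK hI
  obtain ⟨p, hp, h2, h3⟩ := hI
  have key := hC M T c hK 5 9 p (fun i => (GKE_w i : ℝ) / 40 + 1) GKE_a GKE_b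
    (fun s => (GKE_m s : ℝ) / 40) (210 / 40) hp
    (fun i => by
      have : (0 : ℝ) ≤ (GKE_w i : ℝ) / 40 := by positivity
      linarith)
    (fun _ => by positivity) (fun s => h3 _ _ (GKE_ad s)) ?_ ?_
  · unfold Bd
    refine key.trans ?_
    have hcl := hK.cl
    have hs : (∑ i : Fin 5, (((GKE_w i : ℝ) / 40 + 1) - 1 - Real.log ((GKE_w i : ℝ) / 40 + 1))) -
        210 / 40 + c * ∑ s : Fin 9, (GKE_m s : ℝ) / 40 =
        7 * (c - 1 / 4) + (1 / 10 - 13 / 10 * c) -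
          (3 * Real.log (19 / 10) + 2 * Real.log (29 / 20)) := by
      simp only [Fin.sum_univ_succ, GKE_w, GKE_m, Fin.sum_univ_zero]
      simp
      have e1 : (36 / 40 + 1 : ℝ) = 19 / 10 := by norm_num
      have e2 : (18 / 40 + 1 : ℝ) = 29 / 20 := by norm_num
      rw [e1, e2]
      ring
    rw [hs, Real.exp_sub, Real.exp_add]
    have hl : Real.exp (3 * Real.log (19 / 10) + 2 * Real.log (29 / 20)) =
        (19 / 10 : ℝ) ^ 3 * (29 / 20 : ℝ) ^ 2 := by
      rw [Real.exp_add, mul_comm 3 _, Real.exp_mul, Real.exp_log (by norm_num), mul_comm 2 _,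
        Real.exp_mul, Real.exp_log (by norm_num)]
      norm_num
    rw [hl]
    have hm : Real.exp (1 / 10 - 13 / 10 * c) ≤ 40 / 49 := by
      have h4 : (49 / 40 : ℝ) ≤ Real.exp (-(1 / 10 - 13 / 10 * c)) := by
        have := Real.add_one_le_exp (-(1 / 10 - 13 / 10 * c))
        linarith
      rw [Real.exp_neg] at h4
      have h5 := Real.exp_pos (1 / 10 - 13 / 10 * c)
      have h6 : (49 / 40 : ℝ) * Real.exp (1 / 10 - 13 / 10 * c) ≤ 1 := by
        calc (49 / 40 : ℝ) * Real.exp (1 / 10 - 13 / 10 * c)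
            ≤ (Real.exp (1 / 10 - 13 / 10 * c))⁻¹ * Real.exp (1 / 10 - 13 / 10 * c) :=
              mul_le_mul_of_nonneg_right h4 h5.le
          _ = 1 := inv_mul_cancel₀ h5.ne'
      linarith
    have h7 := Real.exp_pos (7 * (c - 1 / 4))
    rw [div_le_div_iff₀ (by norm_num) (by norm_num)]
    have h8 : Real.exp (1 / 10 - 13 / 10 * c) * 16 ≤ (19 / 10 : ℝ) ^ 3 * (29 / 20 : ℝ) ^ 2 := by
      have : (40 / 49 : ℝ) * 16 ≤ (19 / 10 : ℝ) ^ 3 * (29 / 20 : ℝ) ^ 2 := by norm_num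
      linarith
    calc Real.exp (7 * (c - 1 / 4)) * Real.exp (1 / 10 - 13 / 10 * c) * 16
        = Real.exp (7 * (c - 1 / 4)) * (Real.exp (1 / 10 - 13 / 10 * c) * 16) := by ring
      _ ≤ Real.exp (7 * (c - 1 / 4)) * ((19 / 10 : ℝ) ^ 3 * (29 / 20 : ℝ) ^ 2) :=
          mul_le_mul_of_nonneg_left h8 h7.le
  · intro v hv
    obtain ⟨i, j, hij, hT⟩ := h2 v hv
    have h4 := GKE_two i j hij
    have hmem : ∀ x, p x ∈ T v ↔ (x = i ∨ x = j) := by
      intro x
      rw [hT, Finset.mem_insert, Finset.mem_singleton]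
      constructor
      · rintro (h | h)
        · exact Or.inl (hp h)
        · exact Or.inr (hp h)
      · rintro (h | h)
        · exact Or.inl (by rw [h])
        · exact Or.inr (by rw [h])
    simp only [hmem, add_sub_cancel_right]
    rw [GKE_sum, GKE_sum]
    have h5 : (210 : ℝ) ≤ 80 + ((∑ x : Fin 5, if (x = i ∨ x = j) then GKE_w x else 0 : ℕ) : ℝ) +
      ((∑ s : Fin 9, if ¬ (GKE_a s = i ∨ GKE_a s = j) ∧ ¬ (GKE_b s = i ∨ GKE_b s = j)
        then GKE_m s else 0 : ℕ) : ℝ) := by exact_mod_cast h4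
    linarith
  · intro t
    have h4 := GKE_three t
    simp only [add_sub_cancel_right]
    rw [GKE_sum, GKE_sum]
    have h5 : (210 : ℝ) ≤ 40 * max 3 ((univ.filter (fun i : Fin 5 => t i = true)).card : ℝ) +
      ((∑ i : Fin 5, if t i = true then GKE_w i else 0 : ℕ) : ℝ) +
      ((∑ s : Fin 9, if t (GKE_a s) = false ∧ t (GKE_b s) = false then GKE_m s else 0 : ℕ) : ℝ) := by
      exact_mod_cast h4
    linarith

end Pool.Agent.Work.MP_1ce445_k4
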