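import Pool.Agent.Work.MP_1ce445_k4.Interface

/-! # Block LPC: the linear programming bound -/

namespace Pool.Agent.Work.MP_1ce445_k4

open Finset Pool.Agent.Work.MP_1ce445_co_56 Pool.Agent.Work.MP_1ce445_lin

theorem LPC_factor (l p : ℝ) (hl : 1 ≤ l) : 1 - p ≤ Real.exp (l - 1 - Real.log l - l * p) := by
  have hl0 : 0 < l := by linarith
  have h1 := Real.add_one_le_exp (l * (1 - p) - 1)
  have h2 : Real.exp (l - 1 - Real.log l - l * p) = Real.exp (l * (1 - p) - 1) / l := by
    rw [show l - 1 - Real.log l - l * p = (l * (1 - p) - 1) - Real.log l by ring, Real.exp_sub,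
      Real.exp_log hl0]
  rw [h2, le_div_iff₀ hl0]
  linarith

theorem stmt_LPC : Stmt_LPC := by
  classical
  intro V _ k M T c hK lam r e mu K hlam hmu he hv
  have hN : (0 : ℝ) < Fintype.card V := by exact_mod_cast hK.pos
  have hp : ∀ x, pr T x ≤ 1 := by
    intro x
    unfold pr
    rw [div_le_one hN]
    exact_mod_cast Finset.card_le_univ _
  -- double counting
  have h1 : ∑ x ∈ M, lam x * pr T x * Fintype.card V = ∑ v, ∑ x ∈ T v, lam x := by
    have h2 : ∀ x ∈ M, lam x * pr T x * Fintype.card V = ∑ v, if x ∈ T v then lam x else 0 := by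
      intro x _
      unfold pr
      rw [mul_assoc, div_mul_cancel₀ _ hN.ne', ← Finset.sum_filter, Finset.sum_const, nsmul_eq_mul,
        mul_comm]
    rw [Finset.sum_congr rfl h2, Finset.sum_comm]
    apply Finset.sum_congr rfl
    intro v _
    rw [← Finset.sum_filter]
    congr 1
    ext x
    simp only [Finset.mem_filter]
    exact ⟨fun h => h.2, fun h => ⟨hK.sub v h, h⟩⟩
  have h3 : K * Fintype.card V ≤ ∑ v, ((∑ x ∈ T v, lam x) +
      ∑ i, if e i ∩ T v = ∅ then mu i else 0) := by
    have h4 : ∑ _v : V, K = K * Fintype.card V := by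
      rw [Finset.sum_const, Finset.card_univ, nsmul_eq_mul, mul_comm]
    rw [← h4]
    exact Finset.sum_le_sum (fun v _ => hv v)
  rw [Finset.sum_add_distrib] at h3
  have h5 : ∑ v, ∑ i, (if e i ∩ T v = ∅ then mu i else 0) ≤ c * (∑ i, mu i) * Fintype.card V := by
    rw [Finset.sum_comm, Finset.mul_sum, Finset.sum_mul]
    apply Finset.sum_le_sum
    intro i _
    rw [← Finset.sum_filter, Finset.sum_const, nsmul_eq_mul]
    obtain ⟨v, hvi⟩ := he i
    have h6 := hK.few v
    rw [hvi] at h6
    calc ((univ.filter (fun w => e i ∩ T w = ∅)).card : ℝ) * mu i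
        ≤ (c * Fintype.card V) * mu i := mul_le_mul_of_nonneg_right h6 (hmu i)
      _ = c * mu i * Fintype.card V := by ring
  have h7 : K ≤ ∑ x ∈ M, lam x * pr T x + c * ∑ i, mu i := by
    have h8 : K * Fintype.card V ≤
        (∑ x ∈ M, lam x * pr T x + c * ∑ i, mu i) * Fintype.card V := by
      rw [add_mul, Finset.sum_mul, h1]
      linarith
    exact le_of_mul_le_mul_right h8 hN
  calc ∏ x ∈ M, (1 - pr T x)
      ≤ ∏ x ∈ M, Real.exp (lam x - 1 - Real.log (lam x) - lam x * pr T x) := by
        apply Finset.prod_le_prod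
        · intro x _
          linarith [hp x]
        · intro x _
          exact LPC_factor _ _ (hlam x)
    _ = Real.exp (∑ x ∈ M, (lam x - 1 - Real.log (lam x) - lam x * pr T x)) := by
        rw [Real.exp_sum]
    _ ≤ _ := by
        apply Real.exp_le_exp.2
        rw [Finset.sum_sub_distrib]
        linarith

end Pool.Agent.Work.MP_1ce445_k4
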