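import Pool.Agent.Work.MP_1ce445_k4.Interface

namespace Pool.Agent.Work.MP_1ce445_k4

open Finset Pool.Agent.Work.MP_1ce445_co_56 Pool.Agent.Work.MP_1ce445_lin

theorem RIN_le_exp (x : ℝ) : x ≤ Real.exp (x - 1) := by
  have := Real.add_one_le_exp (x - 1)
  linarith

theorem RIN_four : (4 : ℝ) ≤ Real.exp (3 / 2) := by
  have h1 : Real.exp (3 / 2) = Real.exp 1 * Real.exp (1 / 2) := by
    rw [← Real.exp_add]; norm_num
  have h2 := Real.exp_one_gt_d9
  have h3 := Real.quadratic_le_exp_of_nonneg (x := (1 / 2 : ℝ)) (by norm_num)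
  rw [h1]
  nlinarith [Real.exp_pos (1 : ℝ), Real.exp_pos (1 / 2 : ℝ)]

theorem RIN_q0 : (951 / 125 : ℝ) ≤ Real.exp (20293 / 10000) := by
  have h1 : Real.exp (20293 / 10000) = Real.exp 1 * Real.exp 1 * Real.exp (293 / 10000) := by
    rw [← Real.exp_add, ← Real.exp_add]; norm_num
  have h2 := Real.exp_one_gt_d9
  have h3 := Real.quadratic_le_exp_of_nonneg (x := (293 / 10000 : ℝ)) (by norm_num)
  rw [h1]
  have h4 : (2.7182818283 : ℝ) * 2.7182818283 ≤ Real.exp 1 * Real.exp 1 := by nlinarith
  have h5 : (7.38905 : ℝ) ≤ Real.exp 1 * Real.exp 1 := by nlinarith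
  have h6 : (1.029729 : ℝ) ≤ Real.exp (293 / 10000) := by nlinarith
  have h7 : (7.38905 : ℝ) * 1.029729 ≤ Real.exp 1 * Real.exp 1 * Real.exp (293 / 10000) :=
    mul_le_mul h5 h6 (by norm_num) (by linarith)
  nlinarith

theorem RIN_g : (49 / 80 : ℝ) * Real.exp (49 / 100) ≤ 1 := by
  have h1 : Real.exp (49 / 100) * Real.exp (49 / 100) * Real.exp (2 / 100) = Real.exp 1 := by
    rw [← Real.exp_add, ← Real.exp_add]; norm_num
  have h2 := Real.exp_one_lt_d9
  have h3 := Real.quadratic_le_exp_of_nonneg (x := (2 / 100 : ℝ)) (by norm_num)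
  have h4 : (1.0202 : ℝ) ≤ Real.exp (2 / 100) := by nlinarith
  have h5 : 0 < Real.exp (49 / 100 : ℝ) := Real.exp_pos _
  have h6 : Real.exp (49 / 100) * Real.exp (49 / 100) * 1.0202 ≤ 2.7182818286 := by
    have : Real.exp (49 / 100) * Real.exp (49 / 100) * 1.0202 ≤
        Real.exp (49 / 100) * Real.exp (49 / 100) * Real.exp (2 / 100) :=
      mul_le_mul_of_nonneg_left h4 (by positivity)
    linarith
  by_contra hcon
  push Not at hcon
  have h7 : (80 / 49 : ℝ) < Real.exp (49 / 100) := by linarith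
  have h8 : (80 / 49 : ℝ) * (80 / 49) < Real.exp (49 / 100) * Real.exp (49 / 100) := by nlinarith
  nlinarith

theorem RIN_h : (49 / 10 : ℝ) ≤ Real.exp (78 / 49) := by
  have h1 : Real.exp (78 / 49) * Real.exp (78 / 49) =
      Real.exp 1 * Real.exp 1 * Real.exp 1 * Real.exp (9 / 49) := by
    rw [← Real.exp_add, ← Real.exp_add, ← Real.exp_add, ← Real.exp_add]; norm_num
  have h2 := Real.exp_one_gt_d9
  have h3 := Real.quadratic_le_exp_of_nonneg (x := (9 / 49 : ℝ)) (by norm_num)
  have h5 : (7.38905 : ℝ) ≤ Real.exp 1 * Real.exp 1 := by nlinarith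
  have h6 : (7.38905 : ℝ) * 2.718 ≤ Real.exp 1 * Real.exp 1 * Real.exp 1 :=
    mul_le_mul h5 (by linarith) (by norm_num) (by positivity)
  have h7 : (1.2 : ℝ) ≤ Real.exp (9 / 49) := by nlinarith
  have h8 : (7.38905 : ℝ) * 2.718 * 1.2 ≤ Real.exp 1 * Real.exp 1 * Real.exp 1 * Real.exp (9 / 49) :=
    mul_le_mul h6 h7 (by norm_num) (by positivity)
  have h9 : 0 < Real.exp (78 / 49 : ℝ) := Real.exp_pos _
  by_contra hcon
  push Not at hcon
  nlinarith

theorem stmt_RIN : Stmt_RIN := by
  constructor
  · intro c q S S2 hc1 hc2 hq0 hq1 hqc hS hS2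
    -- reduction
    have key : 16 * q ≤ Real.exp (7 * (c - 1 / 4) + (23791 / 25000 * (1 + 2 * q - c) +
        7891 / 10000 * (4 * q * (1 - q - c)))) := by
      rcases le_total q (1 / 4) with h4 | h4
      · have e1 : 16 * q ≤ Real.exp (3 / 2) * Real.exp (4 * q - 1) := by
          have := RIN_le_exp (4 * q)
          have h5 := RIN_four
          have h6 : 4 * (4 * q) ≤ Real.exp (3 / 2) * Real.exp (4 * q - 1) :=
            mul_le_mul h5 this (by linarith) (Real.exp_pos _).le
          linarith
        rw [← Real.exp_add] at e1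
        refine e1.trans (Real.exp_le_exp.mpr ?_)
        have e2 : 0 ≤ (7 - 23791 / 25000 - 4 * (7891 / 10000) * q) * (c - 1 / 4) :=
          mul_nonneg (by linarith) (by linarith)
        nlinarith [mul_nonneg hq0 (sub_nonneg.mpr h4)]
      · have e1 : 16 * q ≤ Real.exp (20293 / 10000) * Real.exp (q / (951 / 2000) - 1) := by
          have := RIN_le_exp (q / (951 / 2000))
          have h5 := RIN_q0
          have h6 : 951 / 125 * (q / (951 / 2000)) ≤
              Real.exp (20293 / 10000) * Real.exp (q / (951 / 2000) - 1) :=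
            mul_le_mul h5 this (by positivity) (Real.exp_pos _).le
          have h7 : 951 / 125 * (q / (951 / 2000)) = 16 * q := by ring
          linarith
        rw [← Real.exp_add] at e1
        refine e1.trans (Real.exp_le_exp.mpr ?_)
        rcases le_total q (951 / 2000) with h5 | h5
        · have e2 : 0 ≤ (7 - 23791 / 25000 - 4 * (7891 / 10000) * q) * (c - 1 / 4) :=
            mul_nonneg (by linarith) (by linarith)
          have e3 : 0 ≤ (q - 1 / 4) * (951 / 2000 - q) :=
            mul_nonneg (by linarith) (by linarith)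
          have e4 : q / (951 / 2000) = 2000 / 951 * q := by ring
          rw [e4]
          nlinarith
        · have e2 : 0 ≤ (7 - 23791 / 25000 - 4 * (7891 / 10000) * q) * (c - (q - 451 / 2000)) :=
            mul_nonneg (by linarith) (by linarith)
          have e3 : 0 ≤ (q - 951 / 2000) * (951 / 2000 + 6 / 100 - q) :=
            mul_nonneg (by linarith) (by linarith)
          have e4 : q / (951 / 2000) = 2000 / 951 * q := by ring
          rw [e4]
          nlinarith
    have h1 : Real.exp (-(23791 / 25000 * S + 7891 / 10000 * S2)) ≤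
        Real.exp (-(23791 / 25000 * (1 + 2 * q - c) + 7891 / 10000 * (4 * q * (1 - q - c)))) := by
      apply Real.exp_le_exp.mpr
      linarith
    have h2 : q * Real.exp (-(23791 / 25000 * S + 7891 / 10000 * S2)) ≤
        q * Real.exp (-(23791 / 25000 * (1 + 2 * q - c) + 7891 / 10000 * (4 * q * (1 - q - c)))) :=
      mul_le_mul_of_nonneg_left h1 hq0
    refine h2.trans ?_
    set X := 23791 / 25000 * (1 + 2 * q - c) + 7891 / 10000 * (4 * q * (1 - q - c)) with hX
    have h3 : Real.exp (7 * (c - 1 / 4) + X) * Real.exp (-X) = Real.exp (7 * (c - 1 / 4)) := by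
      rw [← Real.exp_add]; ring_nf
    have h4 : 16 * q * Real.exp (-X) ≤ Real.exp (7 * (c - 1 / 4) + X) * Real.exp (-X) :=
      mul_le_mul_of_nonneg_right key (Real.exp_pos _).le
    rw [h3] at h4
    linarith
  · intro c q om S Sn n hc1 hc2 hq0 hq1 hqc hom0 hom1 hn hS hSn
    set g : ℝ := 49 / 80 * Real.exp (31 / 49) with hg
    set u : ℝ := g * Real.exp (-(31 / 49 * (q - c))) with hu
    have hg0 : 0 ≤ g := by rw [hg]; positivity
    have hu0 : 0 ≤ u := by rw [hu]; positivity
    have hu1 : u ≤ 1 := by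
      rw [hu, hg, mul_assoc, ← Real.exp_add]
      refine le_trans ?_ RIN_g
      apply mul_le_mul_of_nonneg_left _ (by norm_num)
      apply Real.exp_le_exp.mpr
      nlinarith
    have hun : u ^ n ≤ u := by
      calc u ^ n ≤ u ^ 1 := pow_le_pow_of_le_one hu0 hu1 hn
        _ = u := pow_one u
    have h1 : Real.exp (-(31 / 49 * Sn + S)) ≤
        Real.exp (-(31 / 49 * (om + n * (q - c)) + (2 + q - c - om))) := by
      apply Real.exp_le_exp.mpr
      linarith
    have h2 : g ^ n * Real.exp (-(31 / 49 * (om + n * (q - c)) + (2 + q - c - om))) =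
        u ^ n * Real.exp (-(31 / 49 * om + (2 + q - c - om))) := by
      have e1 : u ^ n = g ^ n * Real.exp (n * (-(31 / 49 * (q - c)))) := by
        rw [Real.exp_nat_mul, ← mul_pow]
      rw [e1, mul_assoc, ← Real.exp_add]
      congr 2
      ring
    have h3 : q ≤ Real.exp (2 * q - 1) / 2 := by
      have := RIN_le_exp (2 * q)
      linarith
    have h4 : u * Real.exp (-(31 / 49 * om + (2 + q - c - om))) ≤
        49 / 80 * Real.exp (80 / 49 * c - 1 - 2 * q) := by
      rw [hu, hg, mul_assoc, mul_assoc, ← Real.exp_add, ← Real.exp_add]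
      apply mul_le_mul_of_nonneg_left _ (by norm_num)
      apply Real.exp_le_exp.mpr
      nlinarith
    have h5 : q * g ^ n * Real.exp (-(31 / 49 * Sn + S)) ≤
        Real.exp (2 * q - 1) / 2 * (49 / 80 * Real.exp (80 / 49 * c - 1 - 2 * q)) := by
      calc q * g ^ n * Real.exp (-(31 / 49 * Sn + S))
          = q * (g ^ n * Real.exp (-(31 / 49 * Sn + S))) := by ring
        _ ≤ q * (g ^ n * Real.exp (-(31 / 49 * (om + n * (q - c)) + (2 + q - c - om)))) := by
            apply mul_le_mul_of_nonneg_left _ hq0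
            apply mul_le_mul_of_nonneg_left h1 (by positivity)
        _ = q * (u ^ n * Real.exp (-(31 / 49 * om + (2 + q - c - om)))) := by rw [h2]
        _ ≤ q * (49 / 80 * Real.exp (80 / 49 * c - 1 - 2 * q)) := by
            apply mul_le_mul_of_nonneg_left _ hq0
            refine le_trans ?_ h4
            apply mul_le_mul_of_nonneg_right hun (Real.exp_pos _).le
        _ ≤ Real.exp (2 * q - 1) / 2 * (49 / 80 * Real.exp (80 / 49 * c - 1 - 2 * q)) := by
            apply mul_le_mul_of_nonneg_right h3 (by positivity)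
    refine h5.trans ?_
    have h6 : Real.exp (2 * q - 1) / 2 * (49 / 80 * Real.exp (80 / 49 * c - 1 - 2 * q)) =
        49 / 160 * Real.exp (80 / 49 * c - 2) := by
      have : Real.exp (2 * q - 1) * Real.exp (80 / 49 * c - 1 - 2 * q) = Real.exp (80 / 49 * c - 2) := by
        rw [← Real.exp_add]; ring_nf
      rw [← this]; ring
    rw [h6]
    have h7 : Real.exp (80 / 49 * c - 2) * Real.exp (78 / 49) ≤ Real.exp (7 * (c - 1 / 4)) := by
      rw [← Real.exp_add]
      apply Real.exp_le_exp.mpr
      nlinarith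
    have h8 := RIN_h
    have h9 : Real.exp (80 / 49 * c - 2) * (49 / 10) ≤ Real.exp (80 / 49 * c - 2) * Real.exp (78 / 49) :=
      mul_le_mul_of_nonneg_left h8 (Real.exp_pos _).le
    linarith

end Pool.Agent.Work.MP_1ce445_k4
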