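import Pool.Agent.Work.MP_1ce445_k4.Interface

namespace Pool.Agent.Work.MP_1ce445_k4

open Finset Pool.Agent.Work.MP_1ce445_co_56 Pool.Agent.Work.MP_1ce445_lin

theorem stmt_SB4 (hLPC : Stmt_LPC) (hTHR : Stmt_THR) : Stmt_SB4 := by
  intro V _ k M T c hK x1 x2 x3 x4 hnd h2
  classical
  by_cases hfew : ((univ.filter (fun v => (T v).card = 2)).card : ℝ) ≤ 3 / 5 * Fintype.card V
  · exact hTHR M T c hK hfew
  push Not at hfew
  have hN : (0 : ℝ) < Fintype.card V := by exact_mod_cast hK.pos
  set X : Finset (Fin k) := {x1, x2, x3, x4} with hX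
  have hXcard : X.card ≤ 4 := Finset.card_le_four
  -- every T v meets X
  have hmeet : ∀ v, (T v ∩ X).Nonempty := by
    intro v
    by_contra hcon
    rw [Finset.not_nonempty_iff_eq_empty] at hcon
    have hsub : univ.filter (fun w => (T w).card = 2) ⊆ univ.filter (fun w => T v ∩ T w = ∅) := by
      intro w hw
      rw [Finset.mem_filter] at hw ⊢
      refine ⟨Finset.mem_univ _, ?_⟩
      have h3 := h2 w hw.2
      apply Finset.subset_empty.mp
      rw [← hcon]
      exact Finset.inter_subset_inter (Finset.Subset.refl _) h3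
    have h4 : ((univ.filter (fun w => (T w).card = 2)).card : ℝ) ≤
        ((univ.filter (fun w => T v ∩ T w = ∅)).card : ℝ) := by
      exact_mod_cast Finset.card_le_card hsub
    have h5 := hK.few v
    have h6 : c * (Fintype.card V : ℝ) ≤ 31 / 100 * Fintype.card V :=
      mul_le_mul_of_nonneg_right hK.cu hN.le
    nlinarith
  have hsumlam : ∀ v, ∑ x ∈ T v, (if x ∈ X then (2 : ℝ) else 1) = (T v).card + (T v ∩ X).card := by
    intro v
    have e1 : ∀ x : Fin k, (if x ∈ X then (2 : ℝ) else 1) = 1 + (if x ∈ X then 1 else 0) := by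
      intro x
      by_cases hx : x ∈ X
      · simp only [if_pos hx]; norm_num
      · simp only [if_neg hx]; norm_num
    rw [Finset.sum_congr rfl (fun x _ => e1 x), Finset.sum_add_distrib]
    rw [Finset.sum_const, Finset.sum_ite_mem, Finset.sum_const]
    simp
  have hmain := hLPC M T c hK.toKg (fun x => if x ∈ X then 2 else 1) 0 (fun i => i.elim0)
    (fun i => i.elim0) 4 (by
      intro x
      by_cases hx : x ∈ X
      · simp only [if_pos hx]; norm_num
      · simp only [if_neg hx]; norm_num) (fun i => i.elim0) (fun i => i.elim0) (by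
      intro v
      rw [hsumlam v]
      have h7 : 1 ≤ (T v ∩ X).card := Finset.card_pos.mpr (hmeet v)
      have h8 := hK.two v
      have h9 : 4 ≤ (T v).card + (T v ∩ X).card := by
        by_cases h10 : (T v).card = 2
        · have h11 := h2 v h10
          rw [Finset.inter_eq_left.mpr h11]
          omega
        · omega
      have h12 : (4 : ℝ) ≤ (T v).card + (T v ∩ X).card := by exact_mod_cast h9
      simpa using h12)
  refine hmain.trans ?_
  have hlog : 0 ≤ 1 - Real.log 2 := by
    have := Real.log_two_lt_d9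
    linarith
  have hsum : ∑ x ∈ M, ((if x ∈ X then (2 : ℝ) else 1) - 1 - Real.log (if x ∈ X then (2 : ℝ) else 1)) ≤
      4 * (1 - Real.log 2) := by
    have e1 : ∀ x : Fin k, ((if x ∈ X then (2 : ℝ) else 1) - 1 - Real.log (if x ∈ X then (2 : ℝ) else 1)) =
        if x ∈ X then (1 - Real.log 2) else 0 := by
      intro x
      by_cases hx : x ∈ X
      · simp only [if_pos hx]; ring
      · simp only [if_neg hx]; simp
    rw [Finset.sum_congr rfl (fun x _ => e1 x), Finset.sum_ite_mem, Finset.sum_const, nsmul_eq_mul]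
    apply mul_le_mul_of_nonneg_right _ hlog
    have : (M ∩ X).card ≤ 4 := (Finset.card_le_card Finset.inter_subset_right).trans hXcard
    exact_mod_cast this
  have h13 : Real.exp (∑ x ∈ M, ((if x ∈ X then (2 : ℝ) else 1) - 1 -
      Real.log (if x ∈ X then (2 : ℝ) else 1)) - 4 + c * ∑ i : Fin 0, (Fin.elim0 i : ℝ)) ≤
      Real.exp (-(4 * Real.log 2)) := by
    apply Real.exp_le_exp.mpr
    simp only [Finset.univ_eq_empty, Finset.sum_empty, mul_zero]
    linarith
  have h14 : Real.exp (-(4 * Real.log 2)) = 1 / 16 := by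
    rw [Real.exp_neg]
    have : Real.exp (4 * Real.log 2) = 16 := by
      have e : (4 : ℝ) * Real.log 2 = Real.log 2 * (4 : ℕ) := by push_cast; ring
      rw [e, Real.exp_mul, Real.exp_log (by norm_num)]
      norm_num
    rw [this]; norm_num
  have h15 : (1 : ℝ) ≤ Real.exp (7 * (c - 1 / 4)) := by
    apply Real.one_le_exp
    have := hK.cl
    linarith
  have h16 : (1 : ℝ) / 16 ≤ Real.exp (7 * (c - 1 / 4)) / 16 := by linarith
  exact h13.trans (h14.le.trans h16)

end Pool.Agent.Work.MP_1ce445_k4
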