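import Pool.Agent.Work.MP_1ce445_k4.Interface

/-!
Block SNG of THEOREM K4U (MP_1ce445_co).
-/

namespace Pool.Agent.Work.MP_1ce445_k4

open Finset Pool.Agent.Work.MP_1ce445_co_56 Pool.Agent.Work.MP_1ce445_lin

/-- The difference. -/
noncomputable def SNG_g (A B p : ℝ) : ℝ := -Real.log (1 - p) - A * p - B * p ^ 2

theorem SNG_deriv (A B p : ℝ) (hp : p < 1) :
    HasDerivAt (SNG_g A B) (1 / (1 - p) - A - B * (2 * p)) p := by
  have h1 : HasDerivAt (fun x : ℝ => 1 - x) (-1) p := by
    simpa using (hasDerivAt_id p).const_sub 1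
  have h2 : HasDerivAt (fun x : ℝ => Real.log (1 - x)) (-1 / (1 - p)) p :=
    h1.log (by linarith)
  have h3 : HasDerivAt (fun x : ℝ => A * x) A p := by
    simpa using (hasDerivAt_id p).const_mul A
  have h4 : HasDerivAt (fun x : ℝ => B * x ^ 2) (B * (2 * p)) p := by
    simpa using (hasDerivAt_pow 2 p).const_mul B
  have h5 := (h2.neg.sub h3).sub h4
  have h6 : -(-1 / (1 - p)) - A - B * (2 * p) = 1 / (1 - p) - A - B * (2 * p) := by ring
  rw [h6] at h5
  exact h5

theorem SNG_factor (L p : ℝ) (hL : L < 1) (hp : p < 1) :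
    1 / (1 - p) - (4 * L - 2) - (4 - 4 * L) * (2 * p) =
      2 * (4 - 4 * L) * (p - 1 / 2) * (p - (3 - 4 * L) / (4 - 4 * L)) / (1 - p) := by
  have h1 : (1 - p) ≠ 0 := by linarith
  obtain ⟨B, hB⟩ : ∃ B : ℝ, B = 4 - 4 * L := ⟨_, rfl⟩
  have h2 : B ≠ 0 := by linarith
  have h4 : 4 * L - 2 = 2 - B := by linarith
  have h5 : 3 - 4 * L = B - 1 := by linarith
  rw [← hB, h4, h5]
  field_simp
  ring

theorem SNG_main (L : ℝ) (hL1 : 1 / 2 < L) (hL2 : L < 3 / 4) (hL : L = Real.log 2) (p : ℝ)
    (hp0 : 0 ≤ p) (hp1 : p < 1) : 0 ≤ SNG_g (4 * L - 2) (4 - 4 * L) p := by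
  set g := SNG_g (4 * L - 2) (4 - 4 * L) with hg
  set r := (3 - 4 * L) / (4 - 4 * L) with hr
  have hB : 0 < 4 - 4 * L := by linarith
  have hr0 : 0 ≤ r := div_nonneg (by linarith) hB.le
  have hr1 : r ≤ 1 / 2 := by
    rw [hr, div_le_iff₀ hB]
    linarith
  have g0 : g 0 = 0 := by simp [hg, SNG_g]
  have gh : g (1 / 2) = 0 := by
    have h1 : Real.log (1 - 1 / 2) = -L := by
      rw [hL]
      have h2 : (1 : ℝ) - 1 / 2 = 2⁻¹ := by norm_num
      rw [h2, Real.log_inv]
    rw [hg]
    unfold SNG_g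
    rw [h1]
    ring
  have hcont : ∀ D : Set ℝ, (∀ x ∈ D, x < 1) → ContinuousOn g D := fun D hD x hx =>
    (SNG_deriv _ _ x (hD x hx)).continuousAt.continuousWithinAt
  have hdiff : ∀ D : Set ℝ, (∀ x ∈ D, x < 1) → DifferentiableOn ℝ g D := fun D hD x hx =>
    (SNG_deriv _ _ x (hD x hx)).differentiableAt.differentiableWithinAt
  have hder : ∀ x, x < 1 → deriv g x =
      2 * (4 - 4 * L) * (x - 1 / 2) * (x - r) / (1 - x) := by
    intro x hx
    rw [(SNG_deriv _ _ x hx).deriv, SNG_factor L x (by linarith) hx]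
  rcases le_total p r with h | h
  · have hm : MonotoneOn g (Set.Icc 0 r) := by
      apply monotoneOn_of_deriv_nonneg (convex_Icc 0 r)
      · exact hcont _ (fun x hx => by linarith [hx.2])
      · rw [interior_Icc]
        exact hdiff _ (fun x hx => by linarith [hx.2])
      · rw [interior_Icc]
        intro x hx
        rw [hder x (by linarith [hx.2])]
        apply div_nonneg _ (by linarith [hx.2])
        have e1 : 0 ≤ (1 / 2 - x) * (r - x) :=
          mul_nonneg (by linarith [hx.2]) (by linarith [hx.2])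
        nlinarith
    have := hm ⟨le_refl 0, hr0⟩ ⟨hp0, h⟩ hp0
    rw [g0] at this
    exact this
  · rcases le_total p (1 / 2) with h' | h'
    · have hm : AntitoneOn g (Set.Icc r (1 / 2)) := by
        apply antitoneOn_of_deriv_nonpos (convex_Icc r (1 / 2))
        · exact hcont _ (fun x hx => by linarith [hx.2])
        · rw [interior_Icc]
          exact hdiff _ (fun x hx => by linarith [hx.2])
        · rw [interior_Icc]
          intro x hx
          rw [hder x (by linarith [hx.2])]
          apply div_nonpos_of_nonpos_of_nonneg _ (by linarith [hx.2])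
          have e1 : 0 ≤ (1 / 2 - x) * (x - r) :=
            mul_nonneg (by linarith [hx.2]) (by linarith [hx.1])
          nlinarith
      have := hm ⟨h, h'⟩ ⟨hr1, le_refl _⟩ h'
      rw [gh] at this
      exact this
    · have hm : MonotoneOn g (Set.Ico (1 / 2) 1) := by
        apply monotoneOn_of_deriv_nonneg (convex_Ico (1 / 2) 1)
        · exact hcont _ (fun x hx => hx.2)
        · rw [interior_Ico]
          exact hdiff _ (fun x hx => hx.2)
        · rw [interior_Ico]
          intro x hx
          rw [hder x hx.2]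
          apply div_nonneg _ (by linarith [hx.2])
          have e1 : 0 ≤ (x - 1 / 2) * (x - r) :=
            mul_nonneg (by linarith [hx.1]) (by linarith [hx.1])
          nlinarith
      have := hm ⟨le_refl _, by norm_num⟩ ⟨h', hp1⟩ h'
      rw [gh] at this
      exact this

theorem stmt_SNG : Stmt_SNG := by
  intro p hp0 hp1
  rcases eq_or_lt_of_le hp1 with h | h
  · rw [h]
    have := Real.exp_pos (-((4 * Real.log 2 - 2) * 1 + (4 - 4 * Real.log 2) * 1 ^ 2))
    linarith
  · have h1 := SNG_main (Real.log 2) (by linarith [Real.log_two_gt_d9])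
      (by linarith [Real.log_two_lt_d9]) rfl p hp0 h
    unfold SNG_g at h1
    rw [← Real.log_le_iff_le_exp (by linarith)]
    linarith

end Pool.Agent.Work.MP_1ce445_k4
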