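import Pool.Agent.Work.MP_1ce445_k4.Interface

/-!
Block TGT: `exp (7 (c - 1/4)) / 16 ≤ c²` on `[1/4, 31/100]`.
-/

namespace Pool.Agent.Work.MP_1ce445_k4

open Finset Pool.Agent.Work.MP_1ce445_co_56 Pool.Agent.Work.MP_1ce445_lin

lemma TGT_aux (x : ℝ) (h0 : 0 ≤ x) (h1 : x ≤ 21 / 100) : Real.exp x ≤ 1 + 8 / 7 * x := by
  have h := Real.exp_bound' h0 (by linarith : x ≤ 1) (n := 3) (by norm_num)
  simp only [Finset.sum_range_succ, Finset.sum_range_zero, Nat.factorial] at h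
  norm_num at h
  have h2 : x ^ 2 ≤ 21 / 100 * x := by nlinarith
  have h3 : x ^ 3 ≤ 21 / 100 * x ^ 2 := by
    have : 0 ≤ x ^ 2 * (21 / 100 - x) := mul_nonneg (sq_nonneg x) (by linarith)
    nlinarith
  nlinarith

theorem stmt_TGT : Stmt_TGT := by
  intro c hc1 hc2
  have hx := TGT_aux (7 * (c - 1 / 4) / 2) (by linarith) (by linarith)
  have e1 : 1 + 8 / 7 * (7 * (c - 1 / 4) / 2) = 4 * c := by ring
  rw [e1] at hx
  have e2 : Real.exp (7 * (c - 1 / 4)) =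
      Real.exp (7 * (c - 1 / 4) / 2) * Real.exp (7 * (c - 1 / 4) / 2) := by
    rw [← Real.exp_add]
    congr 1
    ring
  rw [e2]
  have hpos := (Real.exp_pos (7 * (c - 1 / 4) / 2)).le
  nlinarith [mul_le_mul hx hx hpos (by linarith : (0 : ℝ) ≤ 4 * c)]

end Pool.Agent.Work.MP_1ce445_k4
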