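import Pool.Agent.Work.MP_1ce445_k4.Interface

/-! Block TNG. -/

namespace Pool.Agent.Work.MP_1ce445_k4

open Finset Pool.Agent.Work.MP_1ce445_co_56 Pool.Agent.Work.MP_1ce445_lin

theorem stmt_TNG : Stmt_TNG := by
  intro p h0 h1
  rcases eq_or_lt_of_le h1 with rfl | h
  · simp only [sub_self]
    exact (Real.exp_pos _).le
  · have h2 : |p| < 1 := by rw [abs_of_nonneg h0]; exact h
    have h3 := Real.hasSum_pow_div_log_of_abs_lt_one h2
    have h4 := sum_le_hasSum (range 5) (fun i _ => by positivity) h3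
    simp only [sum_range_succ, sum_range_zero] at h4
    norm_num at h4
    have h7 : 0 ≤ p * (p - 3 / 10) ^ 2 *
        (1 / 3 + (p + 2 * (3 / 10)) / 4 + (p ^ 2 + 2 * (3 / 10) * p + 3 * (3 / 10) ^ 2) / 5) := by
      positivity
    have h8 : p * (p - 3 / 10) ^ 2 *
        (1 / 3 + (p + 2 * (3 / 10)) / 4 + (p ^ 2 + 2 * (3 / 10) * p + 3 * (3 / 10) ^ 2) / 5) =
        (p + p ^ 2 / 2 + p ^ 3 / 3 + p ^ 4 / 4 + p ^ 5 / 5) -
          (23791 / 25000 * p + 7891 / 10000 * p ^ 2) := by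
      ring
    have h5 : Real.log (1 - p) ≤ -(23791 / 25000 * p + 7891 / 10000 * p ^ 2) := by
      linarith
    have h6 : 0 < 1 - p := by linarith
    calc 1 - p = Real.exp (Real.log (1 - p)) := (Real.exp_log h6).symm
      _ ≤ _ := Real.exp_le_exp.2 h5

end Pool.Agent.Work.MP_1ce445_k4
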