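import Pool.Agent.Work.MP_1ce445_k4.Interface

/-! # Block TRI (MP_1ce445_co, theorem K4U): one triangle (helper70) -/

namespace Pool.Agent.Work.MP_1ce445_k4

open Finset Pool.Agent.Work.MP_1ce445_co_56 Pool.Agent.Work.MP_1ce445_lin

theorem TRI_bool (t0 t1 t2 : Bool) :
    (4 : ℝ) ≤ max 3 ((((if t0 = true then 1 else 0) + (if t1 = true then 1 else 0) +
      (if t2 = true then 1 else 0) : ℕ)) : ℝ) +
      ((if t0 = true then (2 : ℝ) - 1 else 0) + (if t1 = true then (2 : ℝ) - 1 else 0) +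
        (if t2 = true then (2 : ℝ) - 1 else 0)) +
      ((if t0 = false ∧ t1 = false then (1 / 3 : ℝ) else 0) +
        (if t1 = false ∧ t2 = false then (1 / 3 : ℝ) else 0) +
        (if t2 = false ∧ t0 = false then (1 / 3 : ℝ) else 0)) := by
  cases t0 <;> cases t1 <;> cases t2 <;> norm_num

theorem TRI_card {k : ℕ} (S : Finset (Fin k)) (x1 x2 x3 : Fin k) (h12 : x1 ≠ x2) (h13 : x1 ≠ x3)
    (h23 : x2 ≠ x3) (hS : S ⊆ {x1, x2, x3}) (h2 : S.card = 2) :
    (if x1 ∈ S then (2 : ℝ) - 1 else 0) + (if x2 ∈ S then (2 : ℝ) - 1 else 0) +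
      (if x3 ∈ S then (2 : ℝ) - 1 else 0) = 2 := by
  have e : S = ({x1, x2, x3} : Finset (Fin k)).filter (fun x => x ∈ S) := by
    ext x
    simp only [Finset.mem_filter]
    exact ⟨fun h => ⟨hS h, h⟩, fun h => h.2⟩
  have e2 : ∑ x ∈ ({x1, x2, x3} : Finset (Fin k)), (if x ∈ S then (1 : ℝ) else 0) = 2 := by
    rw [← Finset.sum_filter, Finset.sum_const, nsmul_eq_mul, mul_one, ← e, h2]
    norm_num
  rw [Finset.sum_insert (by simp [h12, h13]), Finset.sum_insert (by simp [h23]),
    Finset.sum_singleton] at e2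
  norm_num
  linarith

theorem TRI_nonneg (P : Prop) [Decidable P] : (0 : ℝ) ≤ if P then (1 / 3 : ℝ) else 0 := by
  split_ifs <;> norm_num

theorem stmt_TRI (h1 : Stmt_CER) : Stmt_TRI := by
  classical
  intro V _ k M T c hK x1 x2 x3 r1 r2 r3 hin
  have n12 := r1.1
  have n23 := r2.1
  have n13 : x1 ≠ x3 := fun h => r3.1 h.symm
  have hinj : Function.Injective (![x1, x2, x3] : Fin 3 → Fin k) := by
    intro i j hij
    fin_cases i <;> fin_cases j <;> first | rfl | (exfalso; revert hij; simp [n12, n23, n13, n12.symm, n23.symm, n13.symm])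
  have key := h1 M T c hK 3 3 ![x1, x2, x3] (fun _ => 2) ![0, 1, 2]
    ![1, 2, 0] (fun _ => 1 / 3) 4 hinj (fun _ => by norm_num) (fun _ => by norm_num)
    (by
      intro s
      fin_cases s
      · exact r1
      · exact r2
      · exact r3)
    (by
      intro v hv
      simp only [Fin.sum_univ_three]
      show (4 : ℝ) ≤ 2 + ((if x1 ∈ T v then (2 : ℝ) - 1 else 0) +
        (if x2 ∈ T v then (2 : ℝ) - 1 else 0) + (if x3 ∈ T v then (2 : ℝ) - 1 else 0)) +
        ((if x1 ∉ T v ∧ x2 ∉ T v then (1 / 3 : ℝ) else 0) +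
        (if x2 ∉ T v ∧ x3 ∉ T v then (1 / 3 : ℝ) else 0) +
        (if x3 ∉ T v ∧ x1 ∉ T v then (1 / 3 : ℝ) else 0))
      have e := TRI_card (T v) x1 x2 x3 n12 n13 n23 (hin v hv) hv
      by_cases q1 : x1 ∈ T v <;> by_cases q2 : x2 ∈ T v <;> by_cases q3 : x3 ∈ T v <;>
        simp only [q1, q2, q3, if_true, if_false, not_true, not_false_eq_true, and_self, and_true,
          and_false] at e ⊢ <;>
        first | (norm_num; done) | (exfalso; norm_num at e))
    (by
      intro t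
      rw [Finset.card_filter]
      simp only [Fin.sum_univ_three]
      exact TRI_bool (t 0) (t 1) (t 2))
  unfold Bd
  refine key.trans ?_
  have hc := hK.cl
  have hs : (∑ i : Fin 3, ((2 : ℝ) - 1 - Real.log 2)) - 4 + c * ∑ _s : Fin 3, (1 / 3 : ℝ) =
      (c - 1) - 3 * Real.log 2 := by
    simp only [Finset.sum_const, Finset.card_univ, Fintype.card_fin, nsmul_eq_mul]
    push_cast
    ring
  rw [hs]
  have h16 : Real.exp (7 * (c - 1 / 4)) / 16 = Real.exp (7 * (c - 1 / 4) - 4 * Real.log 2) := by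
    rw [Real.exp_sub]
    congr 1
    rw [mul_comm, Real.exp_mul, Real.exp_log (by norm_num)]
    norm_num
  rw [h16]
  apply Real.exp_le_exp.2
  have hl := Real.log_two_lt_d9
  linarith

end Pool.Agent.Work.MP_1ce445_k4
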