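import Pool.Agent.Work.MP_1ce445_k4.Interface

/-! # Block TWT (MP_1ce445_co, theorem K4U): two disjoint triangles (helper89) -/

namespace Pool.Agent.Work.MP_1ce445_k4

open Finset Pool.Agent.Work.MP_1ce445_co_56 Pool.Agent.Work.MP_1ce445_lin

theorem TWT_bool (t0 t1 t2 t3 t4 t5 : Bool) :
    (7 : ℝ) ≤ max 3 ((((if t0 = true then 1 else 0) + (if t1 = true then 1 else 0) +
      (if t2 = true then 1 else 0) + (if t3 = true then 1 else 0) +
      (if t4 = true then 1 else 0) + (if t5 = true then 1 else 0) : ℕ)) : ℝ) +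
      ((if t0 = true then (2 : ℝ) - 1 else 0) + (if t1 = true then (2 : ℝ) - 1 else 0) +
        (if t2 = true then (2 : ℝ) - 1 else 0) + (if t3 = true then (2 : ℝ) - 1 else 0) +
        (if t4 = true then (2 : ℝ) - 1 else 0) + (if t5 = true then (2 : ℝ) - 1 else 0)) +
      ((if t0 = false ∧ t1 = false then (1 : ℝ) else 0) +
        (if t1 = false ∧ t2 = false then (1 : ℝ) else 0) +
        (if t2 = false ∧ t0 = false then (1 : ℝ) else 0) +
        (if t3 = false ∧ t4 = false then (1 : ℝ) else 0) +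
        (if t4 = false ∧ t5 = false then (1 : ℝ) else 0) +
        (if t5 = false ∧ t3 = false then (1 : ℝ) else 0)) := by
  cases t0 <;> cases t1 <;> cases t2 <;> cases t3 <;> cases t4 <;> cases t5 <;> norm_num

theorem TWT_card {k : ℕ} (S : Finset (Fin k)) (x1 x2 x3 : Fin k) (h12 : x1 ≠ x2) (h13 : x1 ≠ x3)
    (h23 : x2 ≠ x3) (hS : S ⊆ {x1, x2, x3}) (h2 : S.card = 2) :
    (if x1 ∈ S then (2 : ℝ) - 1 else 0) + (if x2 ∈ S then (2 : ℝ) - 1 else 0) +
      (if x3 ∈ S then (2 : ℝ) - 1 else 0) = 2 := by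
  have e : S = ({x1, x2, x3} : Finset (Fin k)).filter (fun x => x ∈ S) := by
    ext x
    simp only [Finset.mem_filter]
    exact ⟨fun h => ⟨hS h, h⟩, fun h => h.2⟩
  have e2 : ∑ x ∈ ({x1, x2, x3} : Finset (Fin k)), (if x ∈ S then (1 : ℝ) else 0) = 2 := by
    rw [← Finset.sum_filter, Finset.sum_const, nsmul_eq_mul, mul_one, ← e, h2]
    norm_num
  rw [Finset.sum_insert (by simp [h12, h13]), Finset.sum_insert (by simp [h23]),
    Finset.sum_singleton] at e2
  norm_num
  linarith

theorem TWT_nonneg (P : Prop) [Decidable P] : (0 : ℝ) ≤ if P then (1 : ℝ) else 0 := by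
  split_ifs <;> norm_num

theorem stmt_TWT (h1 : Stmt_CER) : Stmt_TWT := by
  classical
  intro V _ k M T c hK x1 x2 x3 y1 y2 y3 hnd r1 r2 r3 s1 s2 s3 hin
  have hinj : Function.Injective (![x1, x2, x3, y1, y2, y3] : Fin 6 → Fin k) := by
    have h := List.nodup_iff_injective_get.1 hnd
    intro i j hij
    have h2 : ∀ i : Fin 6, (![x1, x2, x3, y1, y2, y3] : Fin 6 → Fin k) i =
        [x1, x2, x3, y1, y2, y3].get ⟨i.val, i.isLt⟩ := by
      intro i
      fin_cases i <;> rfl
    rw [h2, h2] at hij
    have h3 := h hij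
    exact Fin.ext (by simpa using congrArg Fin.val h3)
  simp only [List.nodup_cons, List.mem_cons, List.not_mem_nil, or_false, not_or,
    List.nodup_nil, and_true, not_false_eq_true] at hnd
  obtain ⟨⟨n12, n13, m11, m12, m13⟩, ⟨n23, m21, m22, m23⟩, ⟨m31, m32, m33⟩, ⟨k12, k13⟩, k23⟩ := hnd
  have key := h1 M T c hK 6 6 ![x1, x2, x3, y1, y2, y3] (fun _ => 2) ![0, 1, 2, 3, 4, 5]
    ![1, 2, 0, 4, 5, 3] (fun _ => 1) 7 hinj (fun _ => by norm_num) (fun _ => by norm_num)
    (by
      intro s
      fin_cases s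
      · exact r1
      · exact r2
      · exact r3
      · exact s1
      · exact s2
      · exact s3)
    (by
      intro v hv
      simp only [Fin.sum_univ_six]
      show (7 : ℝ) ≤ 2 + ((if x1 ∈ T v then (2 : ℝ) - 1 else 0) +
        (if x2 ∈ T v then (2 : ℝ) - 1 else 0) + (if x3 ∈ T v then (2 : ℝ) - 1 else 0) +
        (if y1 ∈ T v then (2 : ℝ) - 1 else 0) + (if y2 ∈ T v then (2 : ℝ) - 1 else 0) +
        (if y3 ∈ T v then (2 : ℝ) - 1 else 0)) +
        ((if x1 ∉ T v ∧ x2 ∉ T v then (1 : ℝ) else 0) +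
        (if x2 ∉ T v ∧ x3 ∉ T v then (1 : ℝ) else 0) +
        (if x3 ∉ T v ∧ x1 ∉ T v then (1 : ℝ) else 0) +
        (if y1 ∉ T v ∧ y2 ∉ T v then (1 : ℝ) else 0) +
        (if y2 ∉ T v ∧ y3 ∉ T v then (1 : ℝ) else 0) +
        (if y3 ∉ T v ∧ y1 ∉ T v then (1 : ℝ) else 0))
      rcases hin v hv with hs | hs
      · have q1 : y1 ∉ T v := fun h => by
          have := hs h
          simp only [Finset.mem_insert, Finset.mem_singleton] at this
          rcases this with h | h | h
          · exact m11 h.symm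
          · exact m21 h.symm
          · exact m31 h.symm
        have q2 : y2 ∉ T v := fun h => by
          have := hs h
          simp only [Finset.mem_insert, Finset.mem_singleton] at this
          rcases this with h | h | h
          · exact m12 h.symm
          · exact m22 h.symm
          · exact m32 h.symm
        have q3 : y3 ∉ T v := fun h => by
          have := hs h
          simp only [Finset.mem_insert, Finset.mem_singleton] at this
          rcases this with h | h | h
          · exact m13 h.symm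
          · exact m23 h.symm
          · exact m33 h.symm
        have e := TWT_card (T v) x1 x2 x3 n12 n13 n23 hs hv
        rw [if_neg q1, if_neg q2, if_neg q3, if_pos (⟨q1, q2⟩ : y1 ∉ T v ∧ y2 ∉ T v),
          if_pos (⟨q2, q3⟩ : y2 ∉ T v ∧ y3 ∉ T v), if_pos (⟨q3, q1⟩ : y3 ∉ T v ∧ y1 ∉ T v)]
        have g1 := TWT_nonneg (x1 ∉ T v ∧ x2 ∉ T v)
        have g2 := TWT_nonneg (x2 ∉ T v ∧ x3 ∉ T v)
        have g3 := TWT_nonneg (x3 ∉ T v ∧ x1 ∉ T v)
        linarith
      · have q1 : x1 ∉ T v := fun h => by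
          have := hs h
          simp only [Finset.mem_insert, Finset.mem_singleton] at this
          rcases this with h | h | h
          · exact m11 h
          · exact m12 h
          · exact m13 h
        have q2 : x2 ∉ T v := fun h => by
          have := hs h
          simp only [Finset.mem_insert, Finset.mem_singleton] at this
          rcases this with h | h | h
          · exact m21 h
          · exact m22 h
          · exact m23 h
        have q3 : x3 ∉ T v := fun h => by
          have := hs h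
          simp only [Finset.mem_insert, Finset.mem_singleton] at this
          rcases this with h | h | h
          · exact m31 h
          · exact m32 h
          · exact m33 h
        have e := TWT_card (T v) y1 y2 y3 k12 k13 k23 hs hv
        rw [if_neg q1, if_neg q2, if_neg q3, if_pos (⟨q1, q2⟩ : x1 ∉ T v ∧ x2 ∉ T v),
          if_pos (⟨q2, q3⟩ : x2 ∉ T v ∧ x3 ∉ T v), if_pos (⟨q3, q1⟩ : x3 ∉ T v ∧ x1 ∉ T v)]
        have g1 := TWT_nonneg (y1 ∉ T v ∧ y2 ∉ T v)
        have g2 := TWT_nonneg (y2 ∉ T v ∧ y3 ∉ T v)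
        have g3 := TWT_nonneg (y3 ∉ T v ∧ y1 ∉ T v)
        linarith)
    (by
      intro t
      have hb := TWT_bool (t 0) (t 1) (t 2) (t 3) (t 4) (t 5)
      rw [Finset.card_filter]
      simp only [Fin.sum_univ_six]
      exact hb)
  refine key.trans ?_
  have e1 : ∑ _i : Fin 6, ((2 : ℝ) - 1 - Real.log 2) - 7 + c * ∑ _s : Fin 6, (1 : ℝ) =
      6 * (c - 1 / 4) + (1 / 2 - 6 * Real.log 2) := by
    simp only [Finset.sum_const, Finset.card_univ, Fintype.card_fin, nsmul_eq_mul]
    push_cast
    ring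
  rw [e1, Real.exp_add]
  have e5 : Real.exp (6 * (c - 1 / 4)) ≤ Real.exp (7 * (c - 1 / 4)) := by
    apply Real.exp_le_exp.mpr
    have := hK.cl
    nlinarith
  have e4 : Real.exp (1 / 2 - 6 * Real.log 2) ≤ 1 / 16 := by
    rw [Real.exp_sub]
    have e2 : Real.exp (6 * Real.log 2) = 2 ^ 6 := by
      rw [← Real.exp_log (show (0 : ℝ) < 2 ^ 6 by positivity), Real.log_pow]
      norm_num
    rw [e2]
    have h3 : Real.exp (1 / 2) ≤ 4 := by
      have g1 : (1 / 2 : ℝ) ≤ 1 := by norm_num
      have g2 := Real.exp_le_exp.mpr g1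
      have g3 := Real.exp_one_lt_d9
      linarith
    rw [div_le_div_iff₀ (by norm_num) (by norm_num)]
    norm_num
    linarith
  have e7 := mul_le_mul e5 e4 (Real.exp_pos _).le (Real.exp_pos _).le
  linarith

end Pool.Agent.Work.MP_1ce445_k4
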