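import Pool.Agent.Work.MP_1ce445_lin.CORE
import Pool.Agent.Work.MP_1ce445_k4.TGT
import Pool.Agent.Work.MP_1ce445_k4.TNG
import Pool.Agent.Work.MP_1ce445_k4.LPC
import Pool.Agent.Work.MP_1ce445_k4.CER
import Pool.Agent.Work.MP_1ce445_k4.THR
import Pool.Agent.Work.MP_1ce445_k4.SIX
import Pool.Agent.Work.MP_1ce445_k4.IC4
import Pool.Agent.Work.MP_1ce445_k4.STS
import Pool.Agent.Work.MP_1ce445_k4.RIN
import Pool.Agent.Work.MP_1ce445_k4.STX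
import Pool.Agent.Work.MP_1ce445_k4.SB4
import Pool.Agent.Work.MP_1ce445_k4.TRI
import Pool.Agent.Work.MP_1ce445_k4.BK4
import Pool.Agent.Work.MP_1ce445_k4.TWT
import Pool.Agent.Work.MP_1ce445_k4.GB3
import Pool.Agent.Work.MP_1ce445_k4.GBT
import Pool.Agent.Work.MP_1ce445_k4.GC5
import Pool.Agent.Work.MP_1ce445_k4.GG6
import Pool.Agent.Work.MP_1ce445_k4.GG7
import Pool.Agent.Work.MP_1ce445_k4.GKE
import Pool.Agent.Work.MP_1ce445_k4.GK5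
import Pool.Agent.Work.MP_1ce445_k4.CLS
import Pool.Agent.Work.MP_1ce445_k4.FIV
import Pool.Agent.Work.MP_1ce445_k4.ALT
import Pool.Agent.Work.MP_1ce445_k4.SNG
import Pool.Agent.Work.MP_1ce445_k4.ONE
import Pool.Agent.Work.MP_1ce445_k4.ALG
import Pool.Agent.Work.MP_1ce445_k4.UPK

/-!
THEOREM K4U without hypotheses: all blocks together.
-/

namespace Pool.Agent.Work.MP_1ce445_k4

open Finset Pool.Agent.Work.MP_1ce445_co_56 Pool.Agent.Work.MP_1ce445_lin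

theorem h_CER : Stmt_CER := stmt_CER stmt_LPC

theorem h_THR : Stmt_THR := stmt_THR stmt_TNG

theorem h_ALT : Stmt_ALT :=
  stmt_ALT h_THR (stmt_SIX h_CER) (stmt_IC4 h_CER) (stmt_STX stmt_TNG stmt_STS stmt_RIN)
    (stmt_SB4 stmt_LPC h_THR) (stmt_TRI h_CER) (stmt_BK4 h_CER) (stmt_TWT h_CER) (stmt_GB3 h_CER)
    (stmt_GBT h_CER) (stmt_GC5 h_CER) (stmt_GG6 h_CER) (stmt_GG7 h_CER) (stmt_GKE h_CER)
    (stmt_GK5 h_CER) stmt_CLS stmt_FIV

theorem h_ALG : Stmt_ALG := stmt_ALG stmt_TGT h_ALT (stmt_ONE stmt_SNG)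

theorem h_UPK : Stmt_UPK := stmt_UPK stmt_CORE h_ALG

end Pool.Agent.Work.MP_1ce445_k4
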