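import Pool.Agent.Work.MP_1ce445_k4.Interface

/-! Block GK5. -/

set_option autoImplicit false

namespace Pool.Agent.Work.MP_1ce445_k4

open Finset Pool.Agent.Work.MP_1ce445_co_56 Pool.Agent.Work.MP_1ce445_lin

def GK5_a : Fin 10 → Fin 5 := ![0, 0, 0, 0, 1, 1, 1, 2, 2, 3]

def GK5_b : Fin 10 → Fin 5 := ![1, 2, 3, 4, 2, 3, 4, 3, 4, 4]

theorem GK5_ad : ∀ s : Fin 10, ad LK5 (GK5_a s) (GK5_b s) = true := by decide

theorem GK5_ne : ∀ i j : Fin 5, ad LK5 i j = true → i ≠ j := by decide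

theorem GK5_two : ∀ i j : Fin 5, i ≠ j →
    (univ.filter (fun x : Fin 5 => x = i ∨ x = j)).card = 2 ∧
    (univ.filter (fun s : Fin 10 => ¬ (GK5_a s = i ∨ GK5_a s = j) ∧
      ¬ (GK5_b s = i ∨ GK5_b s = j))).card = 3 := by decide

set_option maxRecDepth 100000 in
theorem GK5_three : ∀ t : Fin 5 → Bool,
    63 ≤ 10 * max 3 (univ.filter (fun i : Fin 5 => t i = true)).card +
      8 * (univ.filter (fun i : Fin 5 => t i = true)).card +
      9 * (univ.filter (fun s : Fin 10 => t (GK5_a s) = false ∧ t (GK5_b s) = false)).card := by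
  decide

theorem GK5_sum {r : ℕ} (P : Fin r → Prop) [DecidablePred P] (x : ℝ) :
    (∑ s, if P s then x else 0) = (univ.filter P).card * x := by
  rw [Finset.sum_ite, Finset.sum_const_zero, add_zero, Finset.sum_const, nsmul_eq_mul]

theorem stmt_GK5 (hC : Stmt_CER) : Stmt_GK5 := by
  intro V _ k M T c hK hI
  obtain ⟨p, hp, h2, h3⟩ := hI
  have key := hC M T c hK 5 10 p (fun _ => 9 / 5) GK5_a GK5_b (fun _ => 9 / 10) (63 / 10) hp
    (fun _ => by norm_num) (fun _ => by norm_num) (fun s => h3 _ _ (GK5_ad s)) ?_ ?_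
  · unfold Bd
    refine key.trans ?_
    have hcu := hK.cu
    have hs : (∑ _i : Fin 5, ((9 / 5 : ℝ) - 1 - Real.log (9 / 5))) - 63 / 10 +
        c * ∑ _s : Fin 10, (9 / 10 : ℝ) =
        7 * (c - 1 / 4) + (2 * c - 11 / 20) - 5 * Real.log (9 / 5) := by
      simp only [Finset.sum_const, Finset.card_univ, Fintype.card_fin, nsmul_eq_mul]
      push_cast
      ring
    rw [hs, Real.exp_sub, Real.exp_add]
    have hl : Real.exp (5 * Real.log (9 / 5)) = (9 / 5 : ℝ) ^ 5 := by
      rw [mul_comm, Real.exp_mul, Real.exp_log (by norm_num)]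
      norm_num
    rw [hl]
    have hm : Real.exp (2 * c - 11 / 20) ≤ 100 / 93 := by
      have h4 : (93 / 100 : ℝ) ≤ Real.exp (-(2 * c - 11 / 20)) := by
        have := Real.add_one_le_exp (-(2 * c - 11 / 20))
        linarith
      rw [Real.exp_neg] at h4
      have h5 := Real.exp_pos (2 * c - 11 / 20)
      have h6 : (93 / 100 : ℝ) * Real.exp (2 * c - 11 / 20) ≤ 1 := by
        calc (93 / 100 : ℝ) * Real.exp (2 * c - 11 / 20)
            ≤ (Real.exp (2 * c - 11 / 20))⁻¹ * Real.exp (2 * c - 11 / 20) :=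
              mul_le_mul_of_nonneg_right h4 h5.le
          _ = 1 := inv_mul_cancel₀ h5.ne'
      linarith
    have h7 := Real.exp_pos (7 * (c - 1 / 4))
    rw [div_le_div_iff₀ (by norm_num) (by norm_num)]
    have h8 : Real.exp (2 * c - 11 / 20) * 16 ≤ (9 / 5 : ℝ) ^ 5 := by
      have : (100 / 93 : ℝ) * 16 ≤ (9 / 5 : ℝ) ^ 5 := by norm_num
      linarith
    calc Real.exp (7 * (c - 1 / 4)) * Real.exp (2 * c - 11 / 20) * 16
        = Real.exp (7 * (c - 1 / 4)) * (Real.exp (2 * c - 11 / 20) * 16) := by ring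
      _ ≤ Real.exp (7 * (c - 1 / 4)) * (9 / 5 : ℝ) ^ 5 := mul_le_mul_of_nonneg_left h8 h7.le
  · intro v hv
    obtain ⟨i, j, hij, hT⟩ := h2 v hv
    have hne := GK5_ne i j hij
    obtain ⟨h4, h5⟩ := GK5_two i j hne
    have hmem : ∀ x, p x ∈ T v ↔ (x = i ∨ x = j) := by
      intro x
      rw [hT, Finset.mem_insert, Finset.mem_singleton]
      constructor
      · rintro (h | h)
        · exact Or.inl (hp h)
        · exact Or.inr (hp h)
      · rintro (h | h)
        · exact Or.inl (by rw [h])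
        · exact Or.inr (by rw [h])
    simp only [hmem]
    rw [GK5_sum, GK5_sum, h4, h5]
    norm_num
  · intro t
    have h4 := GK5_three t
    rw [GK5_sum, GK5_sum]
    have h5 : (63 : ℝ) ≤ 10 * max 3 ((univ.filter (fun i : Fin 5 => t i = true)).card : ℝ) +
      8 * ((univ.filter (fun i : Fin 5 => t i = true)).card : ℝ) +
      9 * ((univ.filter (fun s : Fin 10 => t (GK5_a s) = false ∧ t (GK5_b s) = false)).card : ℝ) := by
      exact_mod_cast h4
    linarith

end Pool.Agent.Work.MP_1ce445_k4
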