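import Pool.Agent.Work.MP_1ce445_sm.Interface

/-!
THEOREM K4U for MP_1ce445_co: `P n k ≤ (max (1/16) ((k/n)²) + o(1)) (NN n)^k` for all `k ≤ 3n/10`. Definitions and
statements of the blocks, with complete proofs in the docstrings.

One file `Pool/Agent/Work/MP_1ce445_k4/<ID>.lean` per block, `import Pool.Agent.Work.MP_1ce445_k4.Interface`,
same `open` lines, theorem `stmt_<ID>` with exactly the statements of the column `uses` as hypotheses, in this
order; auxiliary lemmas with the name of the block in front (`THR_aux`). Models: `MP_1ce445_lin/AZE.lean`,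
`BAS.lean`, `AON.lean`, `UP2.lean` (lemmas of these files may be copied).

`p_x = pr T x` is the fraction of the `v` with `x ∈ T v`; `N = |V|`; `h = c - 1/4`. A pair `a, b` is called present if
`a ≠ b` and some `T v` is `{a, b}` (relation `R T`). Every bound is shown in the form
`∏ (1 - p_x) ≤ exp (7 (c - 1/4)) / 16`, which is at most `c²` (TGT).
-/

namespace Pool.Agent.Work.MP_1ce445_k4

open Finset Pool.Agent.Work.MP_1ce445_co_56 Pool.Agent.Work.MP_1ce445_lin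

/-- The hypotheses on the set system without the condition on the size. -/
structure Kg {V : Type} [Fintype V] {k : ℕ} (M : Finset (Fin k)) (T : V → Finset (Fin k))
    (c : ℝ) : Prop where
  pos : 0 < Fintype.card V
  sub : ∀ v, T v ⊆ M
  cl : 1 / 4 ≤ c
  cu : c ≤ 31 / 100
  few : ∀ v, ((univ.filter (fun w => T v ∩ T w = ∅)).card : ℝ) ≤ c * Fintype.card V

/-- The hypotheses on the set system: all sets have at least two elements, and every set is disjoint from at most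
`c |V|` of the others, `1/4 ≤ c ≤ 31/100`. -/
structure Kf {V : Type} [Fintype V] {k : ℕ} (M : Finset (Fin k)) (T : V → Finset (Fin k))
    (c : ℝ) : Prop extends Kg M T c where
  two : ∀ v, 2 ≤ (T v).card

/-- the pair `a, b` is present -/
def R {V : Type} {k : ℕ} (T : V → Finset (Fin k)) (a b : Fin k) : Prop :=
  a ≠ b ∧ ∃ v, T v = {a, b}

/-- the bound -/
def Bd {V : Type} [Fintype V] {k : ℕ} (M : Finset (Fin k)) (T : V → Finset (Fin k)) (c : ℝ) :
    Prop :=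
  ∏ x ∈ M, (1 - pr T x) ≤ Real.exp (7 * (c - 1 / 4)) / 16

/-! ### Tools -/

/-- TGT (40 lines). `x = 7 (c - 1/4) / 2 ∈ [0, 21/100]`, `exp x ≤ 1 + (8/7) x = 4 c` (convexity of `exp`:
`exp x ≤ 1 + x + x²` for `0 ≤ x ≤ 1` is `Real.exp_bound_div_one_sub_of_interval`-like or `Real.exp_bound`; here
`x + x² / 2 + x³ / 2 ≤ (8/7) x`); square it. -/
def Stmt_TGT : Prop :=
  ∀ c : ℝ, 1 / 4 ≤ c → c ≤ 31 / 100 → Real.exp (7 * (c - 1 / 4)) / 16 ≤ c ^ 2

/-- TNG (60 lines). For `0 ≤ p < 1`, `log (1 - p) ≤ -(p + p²/2 + p³/3 + p⁴/4 + p⁵/5)` (as `second_order` in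
`MP_1ce445_co_56/KeyIneq.lean`, with `range 5`), and with `a = 3/10`:
`p + p²/2 + p³/3 + p⁴/4 + p⁵/5 - α p - β p² = p (p - a)² (1/3 + (p + 2a)/4 + (p² + 2 a p + 3 a²)/5) ≥ 0` for
`α = 0.95164`, `β = 0.7891` (exact identity). `p = 1` is clear. -/
def Stmt_TNG : Prop :=
  ∀ p : ℝ, 0 ≤ p → p ≤ 1 → 1 - p ≤ Real.exp (-(23791 / 25000 * p + 7891 / 10000 * p ^ 2))

/-- LPC (120 lines), the linear programming bound. For `x ∈ M` let `l = lam x ≥ 1`:
`l (1 - p_x) ≤ exp (l (1 - p_x) - 1)` (`y ≤ exp (y - 1)`), so `1 - p_x ≤ exp (l - 1 - log l - l p_x)`. Product: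
`∏ ≤ exp (∑_M (l - 1 - log l) - ∑_M l p_x)`, and `N ∑_M lam x p_x = ∑_v ∑_{x ∈ T v} lam x` (double counting, `sub`).
Sum of the hypothesis over all `v`: `K N ≤ ∑_v ∑_{x ∈ T v} lam x + ∑_i mu i #{v | e i ∩ T v = ∅}`, and
`#{v | e i ∩ T v = ∅} ≤ c N` (`few` for a `v` with `T v = e i`). -/
def Stmt_LPC : Prop :=
  ∀ {V : Type} [Fintype V] {k : ℕ} (M : Finset (Fin k)) (T : V → Finset (Fin k)) (c : ℝ),
    Kg M T c → ∀ (lam : Fin k → ℝ) (r : ℕ) (e : Fin r → Finset (Fin k)) (mu : Fin r → ℝ) (K : ℝ),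
    (∀ x, 1 ≤ lam x) → (∀ i, 0 ≤ mu i) → (∀ i, ∃ v, T v = e i) →
    (∀ v, K ≤ ∑ x ∈ T v, lam x + ∑ i, if e i ∩ T v = ∅ then mu i else 0) →
    ∏ x ∈ M, (1 - pr T x) ≤
      Real.exp (∑ x ∈ M, (lam x - 1 - Real.log (lam x)) - K + c * ∑ i, mu i)

/-- CER (150 lines; uses LPC): certificates with `m` named points `p i`, weights `l i`, and multipliers `mu s` for the
present pairs `p (a s), p (b s)`. Take `lam x = l i` if `x = p i` and `lam x = 1` for all other `x` (for instance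
`lam x = 1 + ∑ i, if x = p i then l i - 1 else 0`), `e s = {p (a s), p (b s)}`. The named points are in `M` (they are in
some `T v`, or drop those which are not: the terms `l - 1 - log l` are `≥ 0`), the others contribute `1 - 1 - log 1 = 0`,
so `∑_M (lam x - 1 - log (lam x)) ≤ ∑ i, (l i - 1 - log (l i))`. And
`∑_{x ∈ T v} lam x = |T v| + ∑_i (if p i ∈ T v then l i - 1 else 0)`. For `|T v| = 2` use `h2`; for `|T v| ≥ 3` use `h3`
with `t i = decide (p i ∈ T v)`: `|T v| ≥ 3` and `|T v| ≥ #{i | t i}` (`p` is injective). -/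
def Stmt_CER : Prop :=
  ∀ {V : Type} [Fintype V] {k : ℕ} (M : Finset (Fin k)) (T : V → Finset (Fin k)) (c : ℝ),
    Kf M T c → ∀ (m r : ℕ) (p : Fin m → Fin k) (l : Fin m → ℝ) (a b : Fin r → Fin m)
      (mu : Fin r → ℝ) (K : ℝ), Function.Injective p → (∀ i, 1 ≤ l i) → (∀ s, 0 ≤ mu s) →
    (∀ s, R T (p (a s)) (p (b s))) →
    (∀ v, (T v).card = 2 → K ≤ 2 + (∑ i, if p i ∈ T v then l i - 1 else 0) +
      ∑ s, if p (a s) ∉ T v ∧ p (b s) ∉ T v then mu s else 0) →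
    (∀ t : Fin m → Bool, K ≤ max 3 (((univ.filter (fun i => t i = true)).card : ℕ) : ℝ) +
      (∑ i, if t i = true then l i - 1 else 0) +
      ∑ s, if t (a s) = false ∧ t (b s) = false then mu s else 0) →
    ∏ x ∈ M, (1 - pr T x) ≤
      Real.exp (∑ i, (l i - 1 - Real.log (l i)) - K + c * ∑ s, mu s)

/-- THR (100 lines; uses TNG): few 2-sets. `∑ p_x = (∑_v |T v|)/N ≥ 3 - 3/5 = 12/5`; `∑ p_x² = (∑_{v,w} |T v ∩ T w|)/N² ≥
1 - c ≥ 69/100` (`few`, `AZE_sum` of `AZE.lean`). TNG: the product is at most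
`exp (-(0.95164 · 2.4 + 0.7891 · 0.69)) = exp (-2.8284) ≤ 1/16` (`log 16 = 2.7726`). -/
def Stmt_THR : Prop :=
  ∀ {V : Type} [Fintype V] {k : ℕ} (M : Finset (Fin k)) (T : V → Finset (Fin k)) (c : ℝ),
    Kf M T c → ((univ.filter (fun v => (T v).card = 2)).card : ℝ) ≤ 3 / 5 * Fintype.card V →
    Bd M T c

/-! ### Patterns which may occur together with other pairs -/

/-- SIX (100 lines; uses CER): three disjoint present pairs. `l = 8/5` on the six points, `mu = 8/5` on the three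
pairs, `K = 24/5`: for each of the three pairs `T v` either meets it (and gets `8/5` from a common point) or is
disjoint from it (`mu = 8/5`). The bound is `exp (6 · 3/5 - 24/5 + 24 c/5)/(8/5)^6 = exp (24 (c - 1/4)/5)/16.777`.
(With CER: `p = ![a1, b1, a2, b2, a3, b3]`, `h3` is a finite check.) -/
def Stmt_SIX : Prop :=
  ∀ {V : Type} [Fintype V] {k : ℕ} (M : Finset (Fin k)) (T : V → Finset (Fin k)) (c : ℝ),
    Kf M T c → ∀ a1 b1 a2 b2 a3 b3 : Fin k, [a1, b1, a2, b2, a3, b3].Nodup → R T a1 b1 →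
    R T a2 b2 → R T a3 b3 → Bd M T c

/-- IC4 (120 lines; uses CER): a 4-cycle without diagonals. `p = ![a, b, c', d]`, `l = 2`, `mu = 1` on the four pairs of the
cycle, `K = 5`. With `j` named points in `T v` and `n` missed pairs of the cycle the value is `|T v| + j + n`:
`j = 0`: `n = 4`; `j = 1`: `n = 2`, `|T v| ≥ 2`; `j = 2`: two neighbours on the cycle: `n = 1`; two opposite points:
`n = 0`, but then `|T v| ≥ 3` since the diagonals are not present; `j ≥ 3`: `|T v| ≥ 3`. The bound is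
`exp (4 - 5 + 4 c)/16`. -/
def Stmt_IC4 : Prop :=
  ∀ {V : Type} [Fintype V] {k : ℕ} (M : Finset (Fin k)) (T : V → Finset (Fin k)) (c : ℝ),
    Kf M T c → ∀ x1 x2 x3 x4 : Fin k, [x1, x2, x3, x4].Nodup → R T x1 x2 → R T x2 x3 →
    R T x3 x4 → R T x4 x1 → ¬ R T x1 x3 → ¬ R T x2 x4 → Bd M T c

/-- STS (150 lines): sums for STX. Let `N' = {j | R T x j}`, `q = 1 - p_x`, `om N` the number of the `v` with `|T v| = 2`,
`x ∈ T v`. (1) the 2-sets without `x` are disjoint from `{x, y}`, so there are at most `c N` of them (`few` for the `v`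
with `T v = {x, y}`). `∑_{j ≠ x} p_j N = ∑_v |T v \ {x}|`: at least 1 for the `om N` 2-sets with `x`, 2 for the other
sets with `x`, 2 for the (at most `c N`) 2-sets without `x`, 3 for the other sets without `x`:
`≥ om + 2 (1 - q - om) + 3 q - c`. (2) for `j ∈ N'`: at most `c N` sets contain neither `x` nor `j`, so at least
`(q - c) N` contain `j` and not `x`; and `om = ∑_{j ∈ N'} nex T x j / N`. (3) as in AON: each `v` with `x ∉ T v` meets at
least `(1 - c) N` sets, at least `(1 - c - q) N` of them contain `x`: `∑_{j ≠ x} b_j c_j ≥ q (1 - c - q)`, `p_j = b_j + c_j`,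
`p_j² ≥ 4 b_j c_j` (`b_j`: fraction of the `v` with `x ∉ T v`, `j ∈ T v`). -/
def Stmt_STS : Prop :=
  ∀ {V : Type} [Fintype V] {k : ℕ} (M : Finset (Fin k)) (T : V → Finset (Fin k)) (c : ℝ),
    Kf M T c → ∀ x y : Fin k, R T x y → (∀ v, (T v).card = 2 → x ∉ T v → y ∉ T v) →
    ∃ (om : ℝ) (N' : Finset (Fin k)), 0 ≤ om ∧ om ≤ pr T x ∧ N' ⊆ M.erase x ∧ N'.Nonempty ∧
      2 * pr T x - om + 3 * (1 - pr T x) - c ≤ ∑ j ∈ M.erase x, pr T j ∧
      om + N'.card * (1 - pr T x - c) ≤ ∑ j ∈ N', pr T j ∧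
      4 * (1 - pr T x) * (pr T x - c) ≤ ∑ j ∈ M.erase x, pr T j ^ 2

/-- RIN (100 lines), real inequalities. (1) It is enough to take `S = 1 + 2q - c`, `S2 = 4q(1 - c - q)`: to show
`F = log q - α (1 + 2q - c) - 4 β q (1 - c - q) + 4 log 2 - 7 (c - 1/4) ≤ 0` for `q > 0`, `α = 0.95164`, `β = 0.7891`. `F` is
decreasing in `c` (`α + 4 β q - 7 < 0`), so let `c = max (1/4) (q - 0.2255)`. `c = 1/4`, `q ≤ 1/4`: with
`log q ≤ log (1/4) + 4 q - 1` the bound is a convex quadratic polynomial in `q`, `-0.32` at `q = 0` and `-0.19` at `q = 1/4`.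
`c = 1/4`, `1/4 ≤ q ≤ q0 = 0.4755`: with `log q ≤ log q0 + (q - q0)/q0` convex, `-0.029` at `q = 1/4`, `-0.0015` at `q0`
(`log 0.4755 = -0.743388`, `4 log 2 = 2.772589`). `q = q0 + h`, `c = 1/4 + h`, `0 ≤ h ≤ 0.06`: with the same bound of the
logarithm `-0.0015 - 3.7 h + 6.32 h²`.
(2) `q ≤ exp (2q - 1 - log 2)` (`2q ≤ exp (2q - 1)`), so the left side is at most
`exp (0.142447.. n - (31/49)(om + n (q - c)) - (2 + q - c - om) + 2q - 1 - log 2)` with `n ≥ 1`,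
`log (49/80) + 31/49 = 0.142447..`; the coefficient `0.142447 - (31/49)(q - c)` of `n` is negative for `q - c ≥ 0.2255`, so
take `n = 1`; the coefficient of `om` is positive (`1 - 31/49`), so take `om = 1 - q`; the exponent is then
`0.142447 - (31/49)(1 - c) - (1 + 2q - c) + 2q - 1 - log 2 = -2.77519 + (80/49)(c - 1/4)`. -/
def Stmt_RIN : Prop :=
  (∀ c q S S2 : ℝ, 1 / 4 ≤ c → c ≤ 31 / 100 → 0 ≤ q → q ≤ 1 → q - c ≤ 451 / 2000 →
    1 + 2 * q - c ≤ S → 4 * q * (1 - q - c) ≤ S2 →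
    q * Real.exp (-(23791 / 25000 * S + 7891 / 10000 * S2)) ≤
      Real.exp (7 * (c - 1 / 4)) / 16) ∧
  ∀ (c q om S Sn : ℝ) (n : ℕ), 1 / 4 ≤ c → c ≤ 31 / 100 → 0 ≤ q → q ≤ 1 → 451 / 2000 ≤ q - c →
    0 ≤ om → om ≤ 1 - q → 1 ≤ n → 2 + q - c - om ≤ S → om + n * (q - c) ≤ Sn →
    q * (49 / 80 * Real.exp (31 / 49)) ^ n * Real.exp (-(31 / 49 * Sn + S)) ≤
      Real.exp (7 * (c - 1 / 4)) / 16

/-- STX (120 lines; uses TNG STS RIN). The product is `q ∏_{M \ x} (1 - p_j)`, `q = 1 - p_x`, `S = ∑_{j ≠ x} p_j`. From STS: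
`2 + q - c - om ≤ S` and `om ≤ 1 - q`, so `1 + 2q - c ≤ S`. If `q - c ≤ 0.2255`: TNG for all factors, RIN (1) with
`S2 = ∑_{j ≠ x} p_j²`. Otherwise: for `j ∈ N'` `1 - p_j ≤ (49/80) exp (31/49) exp (-(80/49) p_j)`
(`y ≤ exp (y - 1)` for `y = (80/49)(1 - p_j)`), for the other `j` `1 - p_j ≤ exp (-p_j)`; RIN (2) with
`Sn = ∑_{N'} p_j`. -/
def Stmt_STX : Prop :=
  ∀ {V : Type} [Fintype V] {k : ℕ} (M : Finset (Fin k)) (T : V → Finset (Fin k)) (c : ℝ),
    Kf M T c → ∀ x y : Fin k, R T x y → (∀ v, (T v).card = 2 → x ∉ T v → y ∉ T v) →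
    Bd M T c

/-! ### Closed patterns: all present pairs are known -/

/-- SB4 (80 lines; uses LPC THR): all present pairs are inside four points. If at most `3/5` of the sets have two
elements: THR. Otherwise every `T v` contains one of the four points (a `T v` which does not is disjoint from all 2-sets,
more than `c N` sets). LPC (not CER) with `lam = 2` on the four points, `r = 0`, `K = 4`: `|T v| + j ≥ 4` for 2-sets (`j = 2`) and for
`|T v| ≥ 3`, `j ≥ 1`. The bound is `exp (4 - 4)/16`. -/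
def Stmt_SB4 : Prop :=
  ∀ {V : Type} [Fintype V] {k : ℕ} (M : Finset (Fin k)) (T : V → Finset (Fin k)) (c : ℝ),
    Kf M T c → ∀ x1 x2 x3 x4 : Fin k, [x1, x2, x3, x4].Nodup →
    (∀ v, (T v).card = 2 → T v ⊆ {x1, x2, x3, x4}) → Bd M T c

/-- TRI (80 lines; uses CER): all present pairs are inside a triangle, all three are present. `l = 2`, `mu = 1/3` on the three pairs,
`K = 4`, value `|T v| + j + n/3`: 2-sets `4`; `|T v| ≥ 3`: `j = 0`: `n = 3`, value `4`; `j = 1`: `n = 1`; `j ≥ 2`. The bound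
is `exp (3 - 4 + c)/8`. -/
def Stmt_TRI : Prop :=
  ∀ {V : Type} [Fintype V] {k : ℕ} (M : Finset (Fin k)) (T : V → Finset (Fin k)) (c : ℝ),
    Kf M T c → ∀ x1 x2 x3 : Fin k, R T x1 x2 → R T x2 x3 → R T x3 x1 →
    (∀ v, (T v).card = 2 → T v ⊆ {x1, x2, x3}) → Bd M T c

/-- BK4 (120 lines; uses CER): a book with at least four pages. `p = ![a, b, z1, z2, z3, z4]`, `l = 7/3` for `a, b`, `l = 4/3` for the
`z`; `mu = 1/3` on the eight pairs `{a, z_i}`, `{b, z_i}`; `K = 14/3`. 2-sets (they contain `a` or `b`): `{a, b}`: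
`14/3`; `{a, z_i}`: `7/3 + 4/3 + 3/3`; `{a, w}`: `7/3 + 1 + 4/3`. `|T v| ≥ 3`, `j` of the `z` in `T v`: neither `a` nor `b`:
`|T v| + j/3 + 2 (4 - j)/3 ≥ 14/3`; one of `a, b`: `3 + 4/3 + j/3 + (4 - j)/3`; both: `3 + 8/3`. The bound is
`exp (8/3 + 4/3 - 14/3 + 8 c/3)/((7/3)²(4/3)⁴)`, `(7/3)²(4/3)⁴ = 17.2`. -/
def Stmt_BK4 : Prop :=
  ∀ {V : Type} [Fintype V] {k : ℕ} (M : Finset (Fin k)) (T : V → Finset (Fin k)) (c : ℝ),
    Kf M T c → ∀ a b z1 z2 z3 z4 : Fin k, [a, b, z1, z2, z3, z4].Nodup →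
    R T a z1 → R T a z2 → R T a z3 → R T a z4 → R T b z1 → R T b z2 → R T b z3 → R T b z4 →
    (∀ v, (T v).card = 2 → a ∈ T v ∨ b ∈ T v) → Bd M T c

/-- TWT (120 lines; uses CER): two disjoint triangles. `l = 2` on six points, `mu = 1` on the six pairs, `K = 7`: 2-sets:
`4 + 3`; `|T v| ≥ 3` with `i` and `j` points in the triangles, `i ≤ j`: missed pairs: 3, 1, 0, 0 for 0, 1, 2, 3 points:
`(0,0)`: 9, `(0,1)`: 8, `(1,1)`: `3 + 2 + 2`, `(0,2)`: 8, `(1,2)`: `3 + 3 + 1`, ... The bound is `exp (6 - 7 + 6 c)/64`. -/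
def Stmt_TWT : Prop :=
  ∀ {V : Type} [Fintype V] {k : ℕ} (M : Finset (Fin k)) (T : V → Finset (Fin k)) (c : ℝ),
    Kf M T c → ∀ x1 x2 x3 y1 y2 y3 : Fin k, [x1, x2, x3, y1, y2, y3].Nodup →
    R T x1 x2 → R T x2 x3 → R T x3 x1 → R T y1 y2 → R T y2 y3 → R T y3 y1 →
    (∀ v, (T v).card = 2 → T v ⊆ {x1, x2, x3} ∨ T v ⊆ {y1, y2, y3}) → Bd M T c

/-- the graph with the vertices `0, ..., 4` and the list `L` of edges -/
def ad (L : List (ℕ × ℕ)) (i j : Fin 5) : Bool :=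
  L.contains (i.val, j.val) || L.contains (j.val, i.val)

/-- The present pairs are exactly the edges of the graph `L` on the five points `p i`. -/
def Is {V : Type} {k : ℕ} (T : V → Finset (Fin k)) (L : List (ℕ × ℕ)) : Prop :=
  ∃ p : Fin 5 → Fin k, Function.Injective p ∧
    (∀ v, (T v).card = 2 → ∃ i j, ad L i j = true ∧ T v = {p i, p j}) ∧
    ∀ i j, ad L i j = true → R T (p i) (p j)

/-- book with three pages -/
def LB3 : List (ℕ × ℕ) := [(0, 1), (0, 2), (0, 3), (0, 4), (1, 2), (1, 3), (1, 4)]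
/-- bowtie -/
def LBT : List (ℕ × ℕ) := [(0, 1), (0, 2), (0, 3), (0, 4), (1, 4), (2, 3)]
/-- 5-cycle -/
def LC5 : List (ℕ × ℕ) := [(0, 1), (1, 2), (2, 3), (3, 4), (0, 4)]
/-- a graph with seven edges -/
def LG6 : List (ℕ × ℕ) := [(0, 1), (0, 2), (0, 3), (0, 4), (1, 2), (1, 4), (2, 3)]
/-- a graph with eight edges -/
def LG7 : List (ℕ × ℕ) := [(0, 1), (0, 2), (0, 3), (0, 4), (1, 2), (1, 3), (1, 4), (2, 3)]
/-- complete graph without an edge -/
def LKE : List (ℕ × ℕ) :=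
  [(0, 1), (0, 2), (0, 3), (0, 4), (1, 2), (1, 3), (1, 4), (2, 3), (2, 4)]
/-- complete graph -/
def LK5 : List (ℕ × ℕ) :=
  [(0, 1), (0, 2), (0, 3), (0, 4), (1, 2), (1, 3), (1, 4), (2, 3), (2, 4), (3, 4)]

/-- GB3 (100 lines; uses CER). `l = ![20/9, 20/9, 40/27, 40/27, 40/27]`, `mu = 10/27` on the six pairs `(0,2), (0,3), (0,4), (1,2),
(1,3), (1,4)`, `K = 40/9`. The bound is `exp (35/9 - 40/9 + 20 c/9)/((20/9)²(40/27)³) = exp (20 (c - 1/4)/9)/16.0569`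
(`16 · 1594323 ≤ 25600000`). -/
def Stmt_GB3 : Prop :=
  ∀ {V : Type} [Fintype V] {k : ℕ} (M : Finset (Fin k)) (T : V → Finset (Fin k)) (c : ℝ),
    Kf M T c → Is T LB3 → Bd M T c

/-- GBT (80 lines; uses CER). `l = 7/4` for all five points, `mu = 1` on `(0,1), (2,3), (1,4)`, `K = 9/2`. The bound is
`exp (15/4 - 9/2 + 3 c)/(7/4)^5`, `(7/4)^5 = 16.41`, that is `exp (3 (c - 1/4))/16.41`. -/
def Stmt_GBT : Prop :=
  ∀ {V : Type} [Fintype V] {k : ℕ} (M : Finset (Fin k)) (T : V → Finset (Fin k)) (c : ℝ),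
    Kf M T c → Is T LBT → Bd M T c

/-- GC5 (80 lines; uses CER). `l = 7/4` for all five points, `mu = 1` on `(0,1), (2,3), (3,4)`, `K = 9/2`. Bound as in GBT. -/
def Stmt_GC5 : Prop :=
  ∀ {V : Type} [Fintype V] {k : ℕ} (M : Finset (Fin k)) (T : V → Finset (Fin k)) (c : ℝ),
    Kf M T c → Is T LC5 → Bd M T c

/-- GG6 (100 lines; uses CER). `l = ![2, 2, 2, 4/3, 4/3]`, `mu = 3/10` on `(0,1), (0,2)`, `1/2` on `(0,3), (0,4)`, `3/5` on `(1,2)`,
`9/10` on `(1,4), (2,3)`, `K = 29/6`. The bound is `exp (11/3 - 29/6 + 4 c) · 9/128 = exp (4 (c - 1/4)) exp (-1/6) 9/128`,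
`exp (-1/6) · 9/8 ≤ 1`. -/
def Stmt_GG6 : Prop :=
  ∀ {V : Type} [Fintype V] {k : ℕ} (M : Finset (Fin k)) (T : V → Finset (Fin k)) (c : ℝ),
    Kf M T c → Is T LG6 → Bd M T c

/-- GG7 (100 lines; uses CER). `l = ![2, 2, 8/5, 8/5, 4/3]`, `mu = 3/20` on `(0,1)`, `3/10` on `(0,2), (0,3), (1,2), (1,3)`, `4/5` on
`(0,4), (1,4), (2,3)`, `K = 14/3`. The bound is `exp (53/15 - 14/3 + 15 c/4) · 75/1024`; at `c = 1/4`:
`exp (-47/240) · 75/1024 = 0.0602`. -/
def Stmt_GG7 : Prop :=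
  ∀ {V : Type} [Fintype V] {k : ℕ} (M : Finset (Fin k)) (T : V → Finset (Fin k)) (c : ℝ),
    Kf M T c → Is T LG7 → Bd M T c

/-- GKE (100 lines; uses CER). `l = ![19/10, 19/10, 19/10, 29/20, 29/20]`, `mu = 9/20` on `(0,1), (0,2), (1,2)`, `29/40` on
`(0,3), (0,4), (1,3), (1,4), (2,3), (2,4)`, `K = 21/4`. The bound is `exp (18/5 - 21/4 + 57 c/10)/((19/10)³(29/20)²)`; at
`c = 1/4`: `exp (-0.225)/14.42 = 0.0554`. -/
def Stmt_GKE : Prop :=
  ∀ {V : Type} [Fintype V] {k : ℕ} (M : Finset (Fin k)) (T : V → Finset (Fin k)) (c : ℝ),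
    Kf M T c → Is T LKE → Bd M T c

/-- GK5 (100 lines; uses CER). `l = 9/5`, `mu = 9/10` on all ten pairs, `K = 63/10`. The bound is `exp (4 - 63/10 + 9 c)/(9/5)^5 =
exp (-1/20 + 9 (c - 1/4))/18.89`, and `exp (-1/20 + 2 (c - 1/4)) ≤ 18.89/16` for `c ≤ 31/100`. -/
def Stmt_GK5 : Prop :=
  ∀ {V : Type} [Fintype V] {k : ℕ} (M : Finset (Fin k)) (T : V → Finset (Fin k)) (c : ℝ),
    Kf M T c → Is T LK5 → Bd M T c

/-! ### The graphs -/

/-- CLS (200 lines), pure combinatorics: a symmetric irreflexive relation `Q` satisfies one of the following. Proof.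
Assume that (0)-(3) are false. STEP 1: no two disjoint pairs. Take `Q a b`. Not (3) for `(a, b)`: a pair without `a`
contains `b`: `Q b c`, `c ≠ a`. Not (3) for `(b, a)`: `Q a d`, `d ≠ b`. The pairs `{b, c}`, `{a, d}` are not disjoint, so
`c = d`. Every pair meets `{a,b}`, `{b,c}`, `{a,c}`, so it is inside `{a, b, c}`: (4). STEP 2: `Q a b`, `Q c d`, four
different points, `F = {a, b, c, d}`. Not (1): each pair meets `F`. If all pairs are inside `F`: (5). Otherwise let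
`out u = {w ∉ F | Q u w}` for `u ∈ F`. If `w ∈ out a`, `w' ∈ out b` then `w = w'` (otherwise `{a,w}, {b,w'}, {c,d}`); so if both
are not empty then both are `{w}`. The same for `c, d`. CASE A: `out a = out b = {w}` (or the same for `c, d`, exchange).
If `out c, out d ⊆ {w}`: (7). Otherwise (exchange `c, d`) there is `w1 ∈ out c`, `w1 ≠ w`; `d` is not related to `a`, `b`, `w`
(`{d,a}, {b,w}, {c,w1}`; `{d,b}, {a,w}, {c,w1}`; `{d,w}, {a,b}, {c,w1}`) and `out d ⊆ {w1}`, if `out d` is not empty then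
`out c = {w1}`. If `Q d w1`: in the same way `c` is not related to `a, b, w`: (8) with the triangles `a, b, w` and
`c, d, w1`. If not `Q d w1`: `c` is the only point related to `d`: (3) for `(c, d)`. CASE B: one of `out a`, `out b` is
empty, say `out b`, and one of `out c`, `out d`, say `out d`, but not all four. B1: not `Q b d`. All pairs contain `a` or
`c`. If `Q c z`, `z ≠ a`, not `Q a z`: (3) for `(c, z)` (the pairs without `c` are `{a, t}`, `t ≠ z`). The same with `a`,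
`c` exchanged. So `a` and `c` are related to the same points `z ≠ a, c`: at least three (`b`, `d`, a point outside `F`). If
at least four: (6). If exactly three: (7). B2: `Q b d`. If `w ∈ out a` and `w' ∈ out c` then `w = w'` (`{a,w}, {c,w'}, {b,d}`),
so both are `{w}`: (7). If `out c` is empty: (3) for `(a, w)`, `w ∈ out a` (the pairs without `a` are inside `{b, c, d}`). If
`out a` is empty: (3) for `(c, w)`. -/
def Stmt_CLS : Prop :=
  ∀ {k : ℕ} (Q : Fin k → Fin k → Prop), (∀ a b, Q a b → Q b a) → (∀ a, ¬ Q a a) →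
    (∀ a b, ¬ Q a b) ∨
    (∃ a1 b1 a2 b2 a3 b3, [a1, b1, a2, b2, a3, b3].Nodup ∧ Q a1 b1 ∧ Q a2 b2 ∧ Q a3 b3) ∨
    (∃ x1 x2 x3 x4, [x1, x2, x3, x4].Nodup ∧ Q x1 x2 ∧ Q x2 x3 ∧ Q x3 x4 ∧ Q x4 x1 ∧
      ¬ Q x1 x3 ∧ ¬ Q x2 x4) ∨
    (∃ x y, Q x y ∧ ∀ u v, Q u v → u ≠ x → v ≠ x → u ≠ y ∧ v ≠ y) ∨
    (∃ x1 x2 x3, Q x1 x2 ∧ Q x2 x3 ∧ Q x3 x1 ∧
      ∀ u v, Q u v → (u = x1 ∨ u = x2 ∨ u = x3) ∧ (v = x1 ∨ v = x2 ∨ v = x3)) ∨
    (∃ x1 x2 x3 x4, [x1, x2, x3, x4].Nodup ∧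
      ∀ u v, Q u v → (u = x1 ∨ u = x2 ∨ u = x3 ∨ u = x4) ∧ (v = x1 ∨ v = x2 ∨ v = x3 ∨ v = x4)) ∨
    (∃ a b z1 z2 z3 z4, [a, b, z1, z2, z3, z4].Nodup ∧ Q a z1 ∧ Q a z2 ∧ Q a z3 ∧ Q a z4 ∧
      Q b z1 ∧ Q b z2 ∧ Q b z3 ∧ Q b z4 ∧ ∀ u v, Q u v → u = a ∨ u = b ∨ v = a ∨ v = b) ∨
    (∃ p : Fin 5 → Fin k, Function.Injective p ∧
      ∀ u v, Q u v → (∃ i, u = p i) ∧ ∃ j, v = p j) ∨
    (∃ x1 x2 x3 y1 y2 y3, [x1, x2, x3, y1, y2, y3].Nodup ∧ Q x1 x2 ∧ Q x2 x3 ∧ Q x3 x1 ∧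
      Q y1 y2 ∧ Q y2 y3 ∧ Q y3 y1 ∧ ∀ u v, Q u v →
      ((u = x1 ∨ u = x2 ∨ u = x3) ∧ (v = x1 ∨ v = x2 ∨ v = x3)) ∨
      ((u = y1 ∨ u = y2 ∨ u = y3) ∧ (v = y1 ∨ v = y2 ∨ v = y3)))

/-- FIV (100 lines): all graphs on five points (1024 graphs, a finite check by `decide`, for instance with the ten
Boolean variables; the list of the remaining graphs was found by a program). `Inside S`: all edges are inside `S`. In
words: no edges; or a 4-cycle without diagonals; or the pattern (3); or all edges inside a triangle which is in the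
graph; or all edges inside four points; or the graph is isomorphic to one of the seven graphs. -/
def Stmt_FIV : Prop :=
  ∀ A : Fin 5 → Fin 5 → Bool, (∀ i j, A i j = A j i) → (∀ i, A i i = false) →
    (∀ i j, A i j = false) ∨
    (∃ a b c d : Fin 5, [a, b, c, d].Nodup ∧ A a b = true ∧ A b c = true ∧ A c d = true ∧
      A d a = true ∧ A a c = false ∧ A b d = false) ∨
    (∃ x y : Fin 5, A x y = true ∧ ∀ u v, A u v = true → u ≠ x → v ≠ x → u ≠ y ∧ v ≠ y) ∨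
    (∃ a b c : Fin 5, A a b = true ∧ A b c = true ∧ A c a = true ∧
      ∀ u v, A u v = true → (u = a ∨ u = b ∨ u = c) ∧ (v = a ∨ v = b ∨ v = c)) ∨
    (∃ x : Fin 5, ∀ u v, A u v = true → u ≠ x ∧ v ≠ x) ∨
    ∃ L ∈ [LB3, LBT, LC5, LG6, LG7, LKE, LK5], ∃ s : Fin 5 → Fin 5, Function.Injective s ∧
      ∀ i j, A (s i) (s j) = ad L i j

/-- ALT (150 lines; uses THR SIX IC4 STX SB4 TRI BK4 TWT GB3 GBT GC5 GG6 GG7 GKE GK5 CLS FIV): all sets have at least two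
elements. Apply CLS to `Q = R T`. (0): no 2-sets, THR. (1) SIX. (2) IC4. (3) STX. (4) TRI. (5) SB4. (6) BK4. (8) TWT. (7): FIV
for `A i j = decide (R T (p i) (p j))` (classical), and the same blocks, or `Is T L` for the points `p (s i)`. If `|T v| = 2` then
`T v = {a, b}` with `R T a b` (`Finset.card_eq_two`). -/
def Stmt_ALT : Prop :=
  ∀ {V : Type} [Fintype V] {k : ℕ} (M : Finset (Fin k)) (T : V → Finset (Fin k)) (c : ℝ),
    Kf M T c → Bd M T c

/-! ### Singletons -/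

/-- SNG (80 lines). `A = 4 log 2 - 2`, `B = 4 - 4 log 2`: `f p = - log (1 - p) - A p - B p²` has `f 0 = f (1/2) = 0`,
`f' (1/2) = 0`, and `f' p (1 - p) = 1 - (1 - p)(A + 2 B p)` is a convex quadratic polynomial, positive at `0` (`1 - A > 0`), with
a root in `(0, 1/2)` and the root `1/2`: so `f` increases, decreases up to `1/2` and increases: `f ≥ 0`. (Or:
`-log (1 - p)/p` is convex, `A + B p` is its tangent at `1/2`.) -/
def Stmt_SNG : Prop :=
  ∀ p : ℝ, 0 ≤ p → p ≤ 1 →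
    1 - p ≤ Real.exp (-((4 * Real.log 2 - 2) * p + (4 - 4 * Real.log 2) * p ^ 2))

/-- ONE (150 lines; uses SNG; model `AON.lean`): exactly one singleton `{i}`. `q = 1 - p_i ≤ c`, as in AON:
`∑_{x ≠ i} p_x ≥ 1 + q - c`, `∑_{x ≠ i} p_x² ≥ 4 q (1 - q - c)`. SNG: the product is at most
`f q = q exp (-(A (1 + q - c) + 4 B q (1 - q - c)))`, increasing in `q ≤ c` (`1/q - A - 4 B (1 - c - 2q) > 0`: `1/q ≥ 1/c > 3.2`
and `A = 0.7726`, `4 B (1 - c - 2q) < 1/q - A` also for small `q`; or `log q ≤ log c + q/c - 1` and a quadratic polynomial),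
`f c = c exp (-(A + 4 B c (1 - 2c))) ≤ c²`: with `c = 1/4 + h` equality at `h = 0` (`A + B/2 = 2 log 2`), and
`-log c ≤ A + 4 B c (1 - 2c)` because `-log c ≤ 2 log 2 - 4h + 8h²` and the right side is `2 log 2 - 8 B h²`. -/
def Stmt_ONE : Prop :=
  ∀ {V : Type} [Fintype V] {k : ℕ} (M : Finset (Fin k)) (T : V → Finset (Fin k)) (c : ℝ),
    Kg M T c → ∀ (i : Fin k) (u : V), T u = {i} → (∀ (j : Fin k) (v : V), T v = {j} → j = i) →
    ∏ x ∈ M, (1 - pr T x) ≤ c ^ 2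

/-- ALG (60 lines; uses TGT ALT ONE): all cases. `T v = ∅` is impossible (`few` for `v`, `c < 1`). Two different singletons
`{i}`, `{j}`: at most `c N` sets do not contain `i` (`few`), so `1 - p_i ≤ c`, `1 - p_j ≤ c`, and the other factors are in
`[0, 1]`. One singleton: ONE. None: ALT and TGT. -/
def Stmt_ALG : Prop :=
  ∀ {V : Type} [Fintype V] {k : ℕ} (M : Finset (Fin k)) (T : V → Finset (Fin k)) (c : ℝ),
    Kg M T c → ∏ x ∈ M, (1 - pr T x) ≤ c ^ 2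

/-- UPK (200 lines; uses CORE ALG; models `MP_1ce445_sm/UP3.lean`, `UP2.lean`). `s` small, then `R`, `t`, then `n` large. First
alternative of CORE: `e^{-4} ≤ 1/16`. Second: `V = {v // v ∈ Vg}` with the restriction of `T`; for `v ∈ Vg` the number of the
`w ∈ Vg` with `T v ∩ T w = ∅` is at most `k + 1 + s n ≤ c' |Vg|` for `c' = max (1/4) (k/n + 3 s)`, `c' ≤ 31/100`. ALG:
`∏_M (1 - q_j) ≤ c'² ≤ max (1/16) ((k/n)²) + 6 s`, `q_j` the fraction in `Vg`. The rest as in UP3. -/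
def Stmt_UPK : Prop :=
  ∀ ε : ℝ, 0 < ε → ∃ n0 : ℕ, ∀ n k : ℕ, n0 ≤ n → (k : ℝ) ≤ 3 / 10 * n →
    (P n k : ℝ) ≤ (max (1 / 16) (((k : ℝ) / n) ^ 2) + ε) * (NN n : ℝ) ^ k

end Pool.Agent.Work.MP_1ce445_k4
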